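import Mathlib

/-! Classes of paths in the fundamental group, square filling, Eckmann-Hilton. -/

namespace Pool.Agent.Lib.MP_4c90a8_lc

open scoped unitInterval

variable {Z : Type} [TopologicalSpace Z]

/-- The fundamental group, with multiplication in the order of concatenation. -/
def Pi1 (z : Z) : Type := Path.Homotopic.Quotient z z

noncomputable instance (z : Z) : Group (Pi1 z) where
  mul a b := Path.Homotopic.Quotient.trans a b
  one := Path.Homotopic.Quotient.refl z
  inv a := Path.Homotopic.Quotient.symm a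
  mul_assoc a b c := Path.Homotopic.Quotient.trans_assoc a b c
  one_mul a := Path.Homotopic.Quotient.refl_trans a
  mul_one a := Path.Homotopic.Quotient.trans_refl a
  inv_mul_cancel a := Path.Homotopic.Quotient.symm_trans a

theorem Pi1.mul_def {z : Z} (a b : Pi1 z) : a * b = Path.Homotopic.Quotient.trans a b := rfl
theorem Pi1.one_def {z : Z} : (1 : Pi1 z) = Path.Homotopic.Quotient.refl z := rfl
theorem Pi1.inv_def {z : Z} (a : Pi1 z) : a⁻¹ = Path.Homotopic.Quotient.symm a := rfl

theorem q_symm_trans_cancel {x y w : Z} (a : Path.Homotopic.Quotient x y)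
    (b : Path.Homotopic.Quotient y w) : a.trans (a.symm.trans (a.trans b)) = a.trans b := by
  rw [← Path.Homotopic.Quotient.trans_assoc a a.symm, Path.Homotopic.Quotient.trans_symm, Path.Homotopic.Quotient.refl_trans]

theorem q_cancel_left {x y w : Z} (a : Path.Homotopic.Quotient x y)
    (b : Path.Homotopic.Quotient x w) : a.trans (a.symm.trans b) = b := by
  rw [← Path.Homotopic.Quotient.trans_assoc a a.symm, Path.Homotopic.Quotient.trans_symm, Path.Homotopic.Quotient.refl_trans]

theorem q_cancel_left' {x y w : Z} (a : Path.Homotopic.Quotient x y)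
    (b : Path.Homotopic.Quotient y w) : a.symm.trans (a.trans b) = b := by
  rw [← Path.Homotopic.Quotient.trans_assoc a.symm a, Path.Homotopic.Quotient.symm_trans, Path.Homotopic.Quotient.refl_trans]

theorem q_symm_symm {x y : Z} (a : Path.Homotopic.Quotient x y) : a.symm.symm = a := by
  induction a using Path.Homotopic.Quotient.ind with
  | _ p => rw [← Path.Homotopic.Quotient.mk_symm, ← Path.Homotopic.Quotient.mk_symm, Path.symm_symm]

theorem q_symm_trans {x y w : Z} (a : Path.Homotopic.Quotient x y)
    (b : Path.Homotopic.Quotient y w) : (a.trans b).symm = b.symm.trans a.symm := by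
  induction a using Path.Homotopic.Quotient.ind with
  | _ p =>
  induction b using Path.Homotopic.Quotient.ind with
  | _ q => rw [← Path.Homotopic.Quotient.mk_trans, ← Path.Homotopic.Quotient.mk_symm, Path.trans_symm, Path.Homotopic.Quotient.mk_trans,
      Path.Homotopic.Quotient.mk_symm, Path.Homotopic.Quotient.mk_symm]

open Classical in
/-- The class of a path, closed up by chosen paths from the base point. -/
noncomputable def clsP (z : Z) {x y : Z} (p : Path x y) : Pi1 z :=
  if h : Joined z x then
    ((Path.Homotopic.Quotient.mk h.somePath).trans (Path.Homotopic.Quotient.mk p)).trans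
      (Path.Homotopic.Quotient.mk (h.trans ⟨p⟩).somePath).symm
  else 1

theorem clsP_pos {z x y : Z} (p : Path x y) (hx : Joined z x) (hy : Joined z y) :
    clsP z p = ((Path.Homotopic.Quotient.mk hx.somePath).trans (Path.Homotopic.Quotient.mk p)).trans
      (Path.Homotopic.Quotient.mk hy.somePath).symm := by
  unfold clsP; rw [dif_pos hx]

theorem clsP_trans (z : Z) {x y w : Z} (p : Path x y) (q : Path y w) :
    clsP z (p.trans q) = clsP z p * clsP z q := by
  by_cases hx : Joined z x
  · have hy : Joined z y := hx.trans ⟨p⟩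
    have hw : Joined z w := hy.trans ⟨q⟩
    rw [clsP_pos _ hx hw, clsP_pos _ hx hy, clsP_pos _ hy hw, Pi1.mul_def, Path.Homotopic.Quotient.mk_trans]
    simp only [Path.Homotopic.Quotient.trans_assoc, q_cancel_left']
  · have hy : ¬ Joined z y := fun h => hx (h.trans ⟨p.symm⟩)
    unfold clsP; rw [dif_neg hx, dif_neg hx, dif_neg hy, one_mul]

theorem clsP_refl (z x : Z) : clsP z (Path.refl x) = 1 := by
  by_cases hx : Joined z x
  · rw [clsP_pos _ hx hx, Pi1.one_def, Path.Homotopic.Quotient.mk_refl]
    simp only [Path.Homotopic.Quotient.trans_refl, Path.Homotopic.Quotient.trans_symm]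
  · unfold clsP; rw [dif_neg hx]

theorem clsP_congr (z : Z) {x y : Z} {p q : Path x y} (h : p.Homotopic q) :
    clsP z p = clsP z q := by
  by_cases hx : Joined z x
  · have hy : Joined z y := hx.trans ⟨p⟩
    rw [clsP_pos _ hx hy, clsP_pos _ hx hy, Path.Homotopic.Quotient.eq.2 h]
  · unfold clsP; rw [dif_neg hx, dif_neg hx]

theorem clsP_symm (z : Z) {x y : Z} (p : Path x y) : clsP z p.symm = (clsP z p)⁻¹ := by
  rw [eq_inv_iff_mul_eq_one, ← clsP_trans, clsP_congr z (Path.Homotopic.symm_trans p), clsP_refl]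

theorem clsP_inj {z x y : Z} (hx : Joined z x) {p q : Path x y} (h : clsP z p = clsP z q) :
    p.Homotopic q := by
  have hy : Joined z y := hx.trans ⟨p⟩
  rw [clsP_pos _ hx hy, clsP_pos _ hx hy] at h
  rw [← Path.Homotopic.Quotient.eq]
  have := congrArg (fun c : Path.Homotopic.Quotient z z =>
    ((Path.Homotopic.Quotient.mk hx.somePath).symm.trans c).trans (Path.Homotopic.Quotient.mk hy.somePath)) h
  simpa only [Path.Homotopic.Quotient.trans_assoc, q_cancel_left', Path.Homotopic.Quotient.symm_trans, Path.Homotopic.Quotient.trans_refl]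
    using this

theorem exists_clsP {z x y : Z} (hx : Joined z x) (hy : Joined z y) (c : Pi1 z) :
    ∃ p : Path x y, clsP z p = c := by
  obtain ⟨γ, rfl⟩ := Path.Homotopic.Quotient.mk_surjective c
  refine ⟨(hx.somePath.symm.trans γ).trans hy.somePath, ?_⟩
  rw [clsP_pos _ hx hy]
  simp only [Path.Homotopic.Quotient.mk_trans, Path.Homotopic.Quotient.mk_symm, Path.Homotopic.Quotient.trans_assoc, q_cancel_left,
    Path.Homotopic.Quotient.trans_symm, Path.Homotopic.Quotient.trans_refl]

/-- An unbundled path as a bundled one. -/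
def toPath (q : C(I, Z)) : Path (q 0) (q 1) := ⟨q, rfl, rfl⟩

/-- The class of an unbundled path. -/
noncomputable def cls (z : Z) (q : C(I, Z)) : Pi1 z := clsP z (toPath q)

theorem cls_path (z : Z) {x y : Z} (p : Path x y) : cls z p.toContinuousMap = clsP z p := by
  obtain ⟨q, rfl, rfl⟩ := p
  rfl

theorem cls_eq (z : Z) {x y : Z} (p : Path x y) (q : C(I, Z)) (h : ∀ t, q t = p t) :
    cls z q = clsP z p := by
  rw [← cls_path]
  congr 1
  ext t
  exact h t

/-! ### Filling a square -/

/-- lower right boundary of the square -/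
noncomputable def wA (ς : I) : ℝ := min (2 * (ς : ℝ)) 1
noncomputable def wB (ς : I) : ℝ := max (2 * (ς : ℝ) - 1) 0

theorem wA_add (ς : I) : wA ς + wB ς = 2 * ς := by
  unfold wA wB
  rcases le_total (2 * (ς : ℝ)) 1 with h | h
  · rw [min_eq_left h, max_eq_right (by linarith)]; ring
  · rw [min_eq_right h, max_eq_left (by linarith)]; ring

theorem wA_mem (ς : I) : wA ς ∈ I :=
  ⟨le_min (by have := ς.2.1; linarith) zero_le_one, min_le_right _ _⟩

theorem wB_mem (ς : I) : wB ς ∈ I :=
  ⟨le_max_right _ _, max_le (by have := ς.2.2; linarith) zero_le_one⟩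

theorem wB_lt (ς : I) (h0 : ς ≠ 0) (h1 : ς ≠ 1) : wB ς < wA ς := by
  have a0 : (0 : ℝ) < ς := lt_of_le_of_ne ς.2.1 (fun h => h0 (Subtype.ext h.symm))
  have a1 : (ς : ℝ) < 1 := lt_of_le_of_ne ς.2.2 (fun h => h1 (Subtype.ext h))
  unfold wA wB
  exact max_lt (lt_min (by linarith) (by linarith)) (lt_min (by linarith) one_pos)

theorem conv_mem {a b : ℝ} (ha : a ∈ I) (hb : b ∈ I) (τ : I) : (1 - τ) * a + τ * b ∈ I := by
  have h0 := τ.2.1
  have h1 := τ.2.2
  constructor
  · have := ha.1; have := hb.1; positivity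
  · nlinarith [ha.2, hb.2]

/-- The folding map of the square. -/
noncomputable def fold : C(I × I, I × I) where
  toFun p := (⟨(1 - p.1) * wA p.2 + p.1 * wB p.2, conv_mem (wA_mem _) (wB_mem _) _⟩,
    ⟨(1 - p.1) * wB p.2 + p.1 * wA p.2, conv_mem (wB_mem _) (wA_mem _) _⟩)
  continuous_toFun := by
    unfold wA wB
    fun_prop

theorem fold_surj : Function.Surjective fold := by
  rintro ⟨x, y⟩
  have hx0 := x.2.1
  have hx1 := x.2.2
  have hy0 := y.2.1
  have hy1 := y.2.2
  let ς : I := ⟨(x + y) / 2, by constructor <;> linarith⟩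
  have hs : wA ς + wB ς = x + y := by rw [wA_add]; simp only [ς]; ring
  have hxA : (x : ℝ) ≤ wA ς := le_min (by simp only [ς]; linarith) hx1
  have hxB : wB ς ≤ x := max_le (by simp only [ς]; linarith) hx0
  rcases eq_or_lt_of_le (hxB.trans hxA) with h | h
  · refine ⟨(0, ς), ?_⟩
    ext <;> simp [fold] <;> linarith
  · have hd : 0 < wA ς - wB ς := by linarith
    refine ⟨(⟨(wA ς - x) / (wA ς - wB ς), div_nonneg (by linarith) hd.le,
      (div_le_one hd).2 (by linarith)⟩, ς), ?_⟩
    ext
    · simp only [fold, ContinuousMap.coe_mk]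
      field_simp
      ring
    · simp only [fold, ContinuousMap.coe_mk]
      field_simp
      have : (y : ℝ) = wA ς + wB ς - x := by linarith
      rw [this]; ring

theorem fold_fib {p q : I × I} (h : fold p = fold q) :
    p.2 = q.2 ∧ (p.1 = q.1 ∨ p.2 = 0 ∨ p.2 = 1) := by
  have h1 := congrArg (fun r : I × I => (r.1 : ℝ)) h
  have h2 := congrArg (fun r : I × I => (r.2 : ℝ)) h
  simp only [fold, ContinuousMap.coe_mk] at h1 h2
  have e : p.2 = q.2 := by
    apply Subtype.ext
    have a := wA_add p.2
    have b := wA_add q.2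
    linarith
  refine ⟨e, ?_⟩
  by_contra hc
  push Not at hc
  have := wB_lt p.2 hc.2.1 hc.2.2
  rw [← e] at h1
  apply hc.1
  apply Subtype.ext
  have : ((p.1 : ℝ) - q.1) * (wA p.2 - wB p.2) = 0 := by linarith
  rcases mul_eq_zero.1 this with h | h <;> linarith

theorem square_fill {x0 x1 y0 y1 : Z} (a : Path x0 x1) (b : Path x1 y1) (c : Path x0 y0)
    (e : Path y0 y1) (h : (a.trans b).Homotopic (c.trans e)) :
    ∃ F : C(I × I, Z), (∀ s, F (s, 0) = a s) ∧ (∀ s, F (s, 1) = e s) ∧
      (∀ t, F (0, t) = c t) ∧ ∀ t, F (1, t) = b t := by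
  obtain ⟨K⟩ := h
  have hq : Topology.IsQuotientMap fold :=
    (fold.continuous.isClosedMap.isQuotientMap fold.continuous fold_surj)
  have hf : Function.FactorsThrough K.toContinuousMap fold := by
    rintro ⟨τ, ς⟩ ⟨τ', ς'⟩ hh
    obtain ⟨h1, h2⟩ := fold_fib hh
    simp only at h1 h2
    subst h1
    rcases h2 with rfl | rfl | rfl
    · rfl
    · exact (K.source τ).trans (K.source τ').symm
    · exact (K.target τ).trans (K.target τ').symm
  have key : ∀ p, hq.lift K.toContinuousMap hf (fold p) = K p := fun p =>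
    congrArg (fun g : C(I × I, Z) => g p) (hq.lift_comp K.toContinuousMap hf)
  have half : ∀ s : I, ((s : ℝ) / 2) ∈ I := fun s =>
    ⟨by have := s.2.1; linarith, by have := s.2.2; linarith⟩
  have half' : ∀ s : I, ((1 + s : ℝ) / 2) ∈ I := fun s =>
    ⟨by have := s.2.1; linarith, by have := s.2.2; linarith⟩
  have A1 : ∀ s : I, wA ⟨_, half s⟩ = s := fun s => by
    unfold wA; rw [min_eq_left (by have := s.2.2; simp only; linarith)]; simp only; ring
  have B1 : ∀ s : I, wB ⟨_, half s⟩ = 0 := fun s => by
    unfold wB; rw [max_eq_right (by have := s.2.2; simp only; linarith)]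
  have A2 : ∀ s : I, wA ⟨_, half' s⟩ = 1 := fun s => by
    unfold wA; rw [min_eq_right (by have := s.2.1; simp only; linarith)]
  have B2 : ∀ s : I, wB ⟨_, half' s⟩ = s := fun s => by
    unfold wB; rw [max_eq_left (by have := s.2.1; simp only; linarith)]; simp only; ring
  have T1 : ∀ {u v w : Z} (p : Path u v) (q : Path v w) (s : I),
      (p.trans q) ⟨_, half s⟩ = p s := fun p q s => by
    rw [Path.trans_apply, dif_pos (by have := s.2.2; simp only; linarith)]
    congr 1; apply Subtype.ext; simp only; ring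
  have T2 : ∀ {u v w : Z} (p : Path u v) (q : Path v w) (s : I),
      (p.trans q) ⟨_, half' s⟩ = q s := fun p q s => by
    rw [Path.trans_apply]
    split_ifs with hh
    · have : s = 0 := Subtype.ext (le_antisymm (by simp only at hh; simp only [Set.Icc.coe_zero]; linarith) s.2.1)
      subst this
      refine Eq.trans ?_ (p.target.trans q.source.symm)
      congr 1; apply Subtype.ext; simp
    · congr 1; apply Subtype.ext; simp only; ring
  refine ⟨hq.lift K.toContinuousMap hf, fun s => ?_, fun s => ?_, fun s => ?_, fun s => ?_⟩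
  · have : (s, (0 : I)) = fold (0, ⟨_, half s⟩) := by
      ext <;> simp [fold, A1, B1]
    rw [this, key]
    exact (K.apply_zero _).trans (T1 a b s)
  · have : (s, (1 : I)) = fold (1, ⟨_, half' s⟩) := by
      ext <;> simp [fold, A2, B2]
    rw [this, key]
    exact (K.apply_one _).trans (T2 c e s)
  · have : ((0 : I), s) = fold (1, ⟨_, half s⟩) := by
      ext <;> simp [fold, A1, B1]
    rw [this, key]
    exact (K.apply_one _).trans (T1 c e s)
  · have : ((1 : I), s) = fold (0, ⟨_, half' s⟩) := by
      ext <;> simp [fold, A2, B2]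
    rw [this, key]
    exact (K.apply_zero _).trans (T2 a b s)

theorem square_unfill {x0 x1 y0 y1 : Z} (a : Path x0 x1) (b : Path x1 y1) (c : Path x0 y0)
    (e : Path y0 y1) (F : C(I × I, Z)) (ha : ∀ s, F (s, 0) = a s) (he : ∀ s, F (s, 1) = e s)
    (hc : ∀ t, F (0, t) = c t) (hb : ∀ t, F (1, t) = b t) :
    (a.trans b).Homotopic (c.trans e) := by
  have A1 : ∀ s : I, (s : ℝ) ≤ 1 / 2 → wA s = 2 * s := fun s h => by
    unfold wA; rw [min_eq_left (by linarith)]
  have B1 : ∀ s : I, (s : ℝ) ≤ 1 / 2 → wB s = 0 := fun s h => by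
    unfold wB; rw [max_eq_right (by linarith)]
  have A2 : ∀ s : I, ¬ (s : ℝ) ≤ 1 / 2 → wA s = 1 := fun s h => by
    unfold wA; rw [min_eq_right (by linarith)]
  have B2 : ∀ s : I, ¬ (s : ℝ) ≤ 1 / 2 → wB s = 2 * s - 1 := fun s h => by
    unfold wB; rw [max_eq_left (by linarith)]
  refine ⟨⟨⟨F.comp fold, fun s => ?_, fun s => ?_⟩, ?_⟩⟩
  · show F (fold (0, s)) = (a.trans b) s
    rw [Path.trans_apply]
    split_ifs with h
    · rw [← ha]; congr 1; ext <;> simp [fold, A1 s h, B1 s h]
    · rw [← hb]; congr 1; ext <;> simp [fold, A2 s h, B2 s h]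
  · show F (fold (1, s)) = (c.trans e) s
    rw [Path.trans_apply]
    split_ifs with h
    · rw [← hc]; congr 1; ext <;> simp [fold, A1 s h, B1 s h]
    · rw [← he]; congr 1; ext <;> simp [fold, A2 s h, B2 s h]
  · rintro t x (rfl | rfl)
    · show F (fold (t, 0)) = (a.trans b) 0
      have : fold (t, 0) = (0, 0) := by ext <;> simp [fold, wA, wB]
      rw [this, ha, a.source, Path.source]
    · show F (fold (t, 1)) = (a.trans b) 1
      have : fold (t, 1) = (1, 1) := by
        ext <;> simp [fold, wA, wB] <;> norm_num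
      rw [this, hb, b.target, Path.target]

/-- Eckmann-Hilton. -/
theorem pi1_loop_comm (z : Z) (a b : Pi1 (Path.refl z)) : a * b = b * a := by
  obtain ⟨α, rfl⟩ := Path.Homotopic.Quotient.mk_surjective a
  obtain ⟨β, rfl⟩ := Path.Homotopic.Quotient.mk_surjective b
  let α' : Path (Path.refl z) (Path.refl z) :=
    ⟨⟨fun s => (α s).trans (Path.refl z), by fun_prop⟩,
      by simp [Path.refl_trans_refl], by simp [Path.refl_trans_refl]⟩
  let β' : Path (Path.refl z) (Path.refl z) :=
    ⟨⟨fun s => (Path.refl z).trans (β s), by fun_prop⟩,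
      by simp [Path.refl_trans_refl], by simp [Path.refl_trans_refl]⟩
  have h1 : α'.Homotopic α := by
    refine ⟨⟨⟨⟨fun p => Path.delayReflRight p.1 (α p.2),
      Path.continuous_delayReflRight.comp (continuous_fst.prodMk (α.continuous.comp continuous_snd))⟩,
      fun s => Path.delayReflRight_zero _, fun s => Path.delayReflRight_one _⟩, ?_⟩⟩
    rintro t x (rfl | rfl)
    · show Path.delayReflRight t (α 0) = α' 0
      rw [α.source, α'.source]; rfl
    · show Path.delayReflRight t (α 1) = α' 1
      rw [α.target, α'.target]; rfl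
  have h2 : β'.Homotopic β := by
    refine ⟨⟨⟨⟨fun p => Path.delayReflLeft p.1 (β p.2),
      Path.continuous_delayReflLeft.comp (continuous_fst.prodMk (β.continuous.comp continuous_snd))⟩,
      fun s => Path.delayReflLeft_zero _, fun s => Path.delayReflLeft_one _⟩, ?_⟩⟩
    rintro t x (rfl | rfl)
    · show Path.delayReflLeft t (β 0) = β' 0
      rw [β.source, β'.source]; rfl
    · show Path.delayReflLeft t (β 1) = β' 1
      rw [β.target, β'.target]; rfl
  have h3 : (α'.trans β').Homotopic (β'.trans α') :=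
    square_unfill α' β' β' α' ⟨fun p => (α p.1).trans (β p.2), by fun_prop⟩
      (fun s => by show (α s).trans (β 0) = _; rw [β.source]; rfl)
      (fun s => by show (α s).trans (β 1) = _; rw [β.target]; rfl)
      (fun s => by show (α 0).trans (β s) = _; rw [α.source]; rfl)
      (fun s => by show (α 1).trans (β s) = _; rw [α.target]; rfl)
  rw [Pi1.mul_def, Pi1.mul_def, ← Path.Homotopic.Quotient.mk_trans,
    ← Path.Homotopic.Quotient.mk_trans]
  exact Path.Homotopic.Quotient.eq.2 (((h1.symm.hcomp h2.symm).trans h3).trans (h2.hcomp h1))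

theorem joined_of_homotopic {x y : Z} {p q : Path x y} (h : p.Homotopic q) : Joined p q := by
  obtain ⟨K⟩ := h
  refine ⟨⟨⟨fun s => K.eval s, ?_⟩, K.eval_zero, K.eval_one⟩⟩
  exact Path.continuous_uncurry_iff.1 K.continuous

end Pool.Agent.Lib.MP_4c90a8_lc
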