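import Mathlib
import Pool.Agent.Lib.MP_4c90a8_lc.Cls

/-! Finite simplicial complexes given by lists of facets, their realisations and simplicial maps. -/

namespace Pool.Agent.Lib.MP_4c90a8_lc

set_option linter.unusedSectionVars false

open scoped unitInterval

variable {V W U : Type} [DecidableEq V] [DecidableEq W] [DecidableEq U]

/-- The closed simplex on a list of vertices. -/
def cell (s : List V) : Set (V → ℝ) :=
  {x | (∀ v, 0 ≤ x v) ∧ (∀ v, v ∉ s → x v = 0) ∧ ∑ v ∈ s.toFinset, x v = 1}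

/-- The geometric realisation. -/
def real (K : List (List V)) : Set (V → ℝ) := {x | ∃ s ∈ K, x ∈ cell s}

theorem cell_supp {s : List V} {x : V → ℝ} (hx : x ∈ cell s) {v : V} (hv : x v ≠ 0) : v ∈ s := by
  by_contra h; exact hv (hx.2.1 v h)

theorem cell_sum {s : List V} {x : V → ℝ} (hx : x ∈ cell s) {T : Finset V}
    (hT : ∀ v, x v ≠ 0 → v ∈ T) : ∑ v ∈ T, x v = 1 := by
  rw [← hx.2.2]
  have h1 : ∑ v ∈ T, x v = ∑ v ∈ T ∪ s.toFinset, x v :=
    Finset.sum_subset Finset.subset_union_left (fun v _ h => by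
      by_contra h'; exact h (hT v h'))
  have h2 : ∑ v ∈ s.toFinset, x v = ∑ v ∈ T ∪ s.toFinset, x v :=
    Finset.sum_subset Finset.subset_union_right (fun v _ h => hx.2.1 v (by simpa using h))
  rw [h1, h2]

theorem cell_mono {s t : List V} {x : V → ℝ} (hx : x ∈ cell s) (ht : ∀ v, x v ≠ 0 → v ∈ t) :
    x ∈ cell t :=
  ⟨hx.1, fun v hv => by by_contra h; exact hv (ht v h),
    cell_sum hx fun v hv => List.mem_toFinset.2 (ht v hv)⟩

theorem mem_cell {t : List V} {x : V → ℝ} (h0 : ∀ v, 0 ≤ x v) (ht : ∀ v, x v ≠ 0 → v ∈ t)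
    {T : Finset V} (hT : ∀ v, x v ≠ 0 → v ∈ T) (h1 : ∑ v ∈ T, x v = 1) : x ∈ cell t := by
  have : x ∈ cell T.toList :=
    ⟨h0, fun v hv => by by_contra h; exact hv (by simpa using hT v h), by simpa using h1⟩
  exact cell_mono this ht

theorem cell_le_one {s : List V} {x : V → ℝ} (hx : x ∈ cell s) (v : V) : x v ≤ 1 := by
  by_cases h : v ∈ s
  · rw [← hx.2.2]
    exact Finset.single_le_sum (fun w _ => hx.1 w) (List.mem_toFinset.2 h)
  · rw [hx.2.1 v h]; exact zero_le_one

theorem cell_exists {s : List V} {x : V → ℝ} (hx : x ∈ cell s) : ∃ v ∈ s, 0 < x v := by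
  by_contra h
  push Not at h
  have : ∑ v ∈ s.toFinset, x v = 0 :=
    Finset.sum_eq_zero fun v hv => le_antisymm (h v (by simpa using hv)) (hx.1 v)
  rw [hx.2.2] at this
  exact one_ne_zero this

theorem cell_lin {s : List V} {x y : V → ℝ} (hx : x ∈ cell s) (hy : y ∈ cell s) (t : I) :
    (fun v => (1 - (t : ℝ)) * x v + t * y v) ∈ cell s := by
  have h0 := t.2.1
  have h1 : 0 ≤ 1 - (t : ℝ) := by linarith [t.2.2]
  refine ⟨fun v => add_nonneg (mul_nonneg h1 (hx.1 v)) (mul_nonneg h0 (hy.1 v)), fun v hv => ?_, ?_⟩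
  · simp [hx.2.1 v hv, hy.2.1 v hv]
  · simp only [Finset.sum_add_distrib, ← Finset.mul_sum, hx.2.2, hy.2.2]; ring

theorem isCompact_cell (s : List V) : IsCompact (cell s) := by
  have h1 : IsCompact (Set.univ.pi fun _ : V => Set.Icc (0 : ℝ) 1) :=
    isCompact_univ_pi fun _ => isCompact_Icc
  refine h1.of_isClosed_subset ?_ fun x hx v _ => ⟨hx.1 v, cell_le_one hx v⟩
  have : cell s = (⋂ v, {x : V → ℝ | 0 ≤ x v}) ∩ ((⋂ v, ⋂ (_ : v ∉ s), {x : V → ℝ | x v = 0}) ∩
      {x : V → ℝ | ∑ v ∈ s.toFinset, x v = 1}) := by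
    ext x; simp [cell]
  rw [this]
  refine (isClosed_iInter fun v => isClosed_le continuous_const (continuous_apply v)).inter
    ((isClosed_iInter fun v => isClosed_iInter fun _ =>
      isClosed_eq (continuous_apply v) continuous_const).inter
      (isClosed_eq (by fun_prop) continuous_const))

theorem isCompact_real (K : List (List V)) : IsCompact (real K) := by
  have : real K = ⋃ s ∈ {s | s ∈ K}, cell s := by ext x; simp [real]
  rw [this]
  exact (List.finite_toSet K).isCompact_biUnion fun s _ => isCompact_cell s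

instance (K : List (List V)) : CompactSpace (real K) :=
  isCompact_iff_compactSpace.1 (isCompact_real K)

theorem cont_coord {K : List (List V)} (v : V) : Continuous fun x : real K => x.1 v :=
  (continuous_apply v).comp continuous_subtype_val

/-- Straight line homotopy. -/
def lin {T : Type} [TopologicalSpace T] {K : List (List V)} (f g : C(T, real K))
    (h : ∀ y, ∃ t ∈ K, (f y).1 ∈ cell t ∧ (g y).1 ∈ cell t) : f.Homotopy g where
  toFun p := ⟨fun v => (1 - (p.1 : ℝ)) * (f p.2).1 v + p.1 * (g p.2).1 v, by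
    obtain ⟨t, ht, h1, h2⟩ := h p.2
    exact ⟨t, ht, cell_lin h1 h2 p.1⟩⟩
  continuous_toFun := by
    refine Continuous.subtype_mk (continuous_pi fun v => ?_) _
    have h1 : Continuous fun p : I × T => (f p.2).1 v :=
      (cont_coord v).comp (f.continuous.comp continuous_snd)
    have h2 : Continuous fun p : I × T => (g p.2).1 v :=
      (cont_coord v).comp (g.continuous.comp continuous_snd)
    have h3 : Continuous fun p : I × T => (p.1 : ℝ) := by fun_prop
    exact ((continuous_const.sub h3).mul h1).add (h3.mul h2)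
  map_zero_left y := by ext v; simp
  map_one_left y := by ext v; simp

theorem lin_homotopic {T : Type} [TopologicalSpace T] {K : List (List V)} (f g : C(T, real K))
    (h : ∀ y, ∃ t ∈ K, (f y).1 ∈ cell t ∧ (g y).1 ∈ cell t) : f.Homotopic g := ⟨lin f g h⟩

theorem lin_path {K : List (List V)} {a b : real K} (p q : Path a b)
    (h : ∀ y, ∃ t ∈ K, (p y).1 ∈ cell t ∧ (q y).1 ∈ cell t) : p.Homotopic q := by
  refine ⟨⟨lin p.toContinuousMap q.toContinuousMap h, ?_⟩⟩
  rintro t x (rfl | rfl)
  · ext v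
    show (1 - (t : ℝ)) * (p 0).1 v + t * (q 0).1 v = (p 0).1 v
    rw [p.source, q.source]; ring
  · ext v
    show (1 - (t : ℝ)) * (p 1).1 v + t * (q 1).1 v = (p 1).1 v
    rw [p.target, q.target]; ring

/-- The vertex set. -/
def verts (K : List (List V)) : Finset V := K.flatten.toFinset

theorem mem_verts {K : List (List V)} {v : V} : v ∈ verts K ↔ ∃ s ∈ K, v ∈ s := by
  simp [verts]

theorem real_supp {K : List (List V)} {x : V → ℝ} (hx : x ∈ real K) {v : V} (hv : x v ≠ 0) :
    v ∈ verts K := by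
  obtain ⟨s, hs, hx⟩ := hx
  exact mem_verts.2 ⟨s, hs, cell_supp hx hv⟩

/-- Push forward of barycentric coordinates. -/
def push (T : Finset V) (φ : V → W) (x : V → ℝ) : W → ℝ :=
  fun w => ∑ v ∈ T, if φ v = w then x v else 0

theorem push_ne {T : Finset V} {φ : V → W} {x : V → ℝ} {w : W} (h : push T φ x w ≠ 0) :
    ∃ v, x v ≠ 0 ∧ φ v = w := by
  obtain ⟨v, _, hv⟩ := Finset.exists_ne_zero_of_sum_ne_zero h
  split_ifs at hv with h'
  · exact ⟨v, hv, h'⟩
  · exact absurd rfl hv

theorem push_mem {K : List (List V)} {x : V → ℝ} (hx : x ∈ real K) {φ : V → W} {t : List W}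
    (ht : ∀ v, x v ≠ 0 → φ v ∈ t) : push (verts K) φ x ∈ cell t := by
  have hx' := hx
  obtain ⟨s, hs, hx⟩ := hx
  refine mem_cell (T := (verts K).image φ) (fun w => Finset.sum_nonneg fun v _ => ?_)
    (fun w hw => ?_) (fun w hw => ?_) ?_
  · split_ifs
    · exact hx.1 v
    · exact le_rfl
  · obtain ⟨v, hv, rfl⟩ := push_ne hw
    exact ht v hv
  · obtain ⟨v, hv, rfl⟩ := push_ne hw
    exact Finset.mem_image_of_mem φ (real_supp hx' hv)
  · unfold push
    rw [Finset.sum_comm, ← cell_sum hx (T := verts K) fun v hv => real_supp hx' hv]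
    refine Finset.sum_congr rfl fun v hv => ?_
    rw [Finset.sum_ite_eq, if_pos (Finset.mem_image_of_mem φ hv)]

theorem push_inj {T : Finset V} {φ : V → W} (hφ : Function.Injective φ) {x : V → ℝ}
    (hT : ∀ v, x v ≠ 0 → v ∈ T) (v : V) : push T φ x (φ v) = x v := by
  unfold push
  simp only [hφ.eq_iff]
  rw [Finset.sum_ite_eq']
  split_ifs with h
  · rfl
  · by_contra h'; exact h (hT v (Ne.symm h'))

/-- A simplicial map. -/
def Simp (φ : V → W) (K : List (List V)) (K' : List (List W)) : Prop :=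
  ∀ s ∈ K, ∃ t ∈ K', ∀ v ∈ s, φ v ∈ t

/-- The realisation of a simplicial map. -/
def smap {φ : V → W} {K : List (List V)} {K' : List (List W)} (h : Simp φ K K') :
    C(real K, real K') where
  toFun x := ⟨push (verts K) φ x.1, by
    obtain ⟨s, hs, hx⟩ := x.2
    obtain ⟨t, ht, hst⟩ := h s hs
    exact ⟨t, ht, push_mem x.2 fun v hv => hst v (cell_supp hx hv)⟩⟩
  continuous_toFun := by
    refine Continuous.subtype_mk (continuous_pi fun w => ?_) _
    refine continuous_finsetSum _ fun v _ => ?_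
    split_ifs
    · exact cont_coord v
    · exact continuous_const

theorem smap_mem {φ : V → W} {K : List (List V)} {K' : List (List W)} (h : Simp φ K K')
    (x : real K) {t : List W} (ht : ∀ v, x.1 v ≠ 0 → φ v ∈ t) : (smap h x).1 ∈ cell t :=
  push_mem x.2 ht

theorem smap_ne {φ : V → W} {K : List (List V)} {K' : List (List W)} (h : Simp φ K K')
    (x : real K) {w : W} (hw : (smap h x).1 w ≠ 0) : ∃ v, x.1 v ≠ 0 ∧ φ v = w :=
  push_ne (T := verts K) hw

/-- Two vertices in a common simplex. -/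
def Adj (K : List (List V)) (u v : V) : Prop := ∃ s ∈ K, u ∈ s ∧ v ∈ s

theorem Adj.symm {K : List (List V)} {u v : V} (h : Adj K u v) : Adj K v u :=
  let ⟨s, hs, a, b⟩ := h; ⟨s, hs, b, a⟩
theorem Adj.left {K : List (List V)} {u v : V} (h : Adj K u v) : Adj K u u :=
  let ⟨s, hs, a, _⟩ := h; ⟨s, hs, a, a⟩
theorem Adj.right {K : List (List V)} {u v : V} (h : Adj K u v) : Adj K v v :=
  let ⟨s, hs, _, b⟩ := h; ⟨s, hs, b, b⟩
theorem Adj.map {φ : V → W} {K : List (List V)} {K' : List (List W)} (h : Simp φ K K') {u v : V}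
    (a : Adj K u v) : Adj K' (φ u) (φ v) :=
  let ⟨s, hs, a, b⟩ := a; let ⟨t, ht, c⟩ := h s hs; ⟨t, ht, c u a, c v b⟩

/-- A point on an edge. -/
def ept (u v : V) (t : ℝ) : V → ℝ :=
  fun w => (1 - t) * (if u = w then 1 else 0) + t * (if v = w then 1 else 0)

theorem ept_ne {u v w : V} {t : ℝ} (h : ept u v t w ≠ 0) : w = u ∨ w = v := by
  by_contra h'
  push Not at h'
  exact h (by simp [ept, h'.1.symm, h'.2.symm])

theorem ept_mem {s : List V} {u v : V} (hu : u ∈ s) (hv : v ∈ s) (t : I) : ept u v t ∈ cell s := by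
  have : ∀ u ∈ s, (fun w => if u = w then (1 : ℝ) else 0) ∈ cell s := fun u hu => by
    refine ⟨fun w => by dsimp only; split_ifs <;> norm_num, fun w hw => ?_, ?_⟩
    · exact if_neg fun h : u = w => hw (h ▸ hu)
    · simp [hu]
  exact cell_lin (this u hu) (this v hv) t

/-- An edge as an unbundled path. -/
def edgeC {K : List (List V)} {u v : V} (h : Adj K u v) : C(I, real K) where
  toFun t := ⟨ept u v t, let ⟨s, hs, a, b⟩ := h; ⟨s, hs, ept_mem a b t⟩⟩
  continuous_toFun := by
    refine Continuous.subtype_mk (continuous_pi fun w => ?_) _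
    unfold ept
    fun_prop

/-- A vertex as a point. -/
def vtx {K : List (List V)} {v : V} (h : Adj K v v) : real K := edgeC h 0

theorem ept_self (u : V) (t t' : ℝ) : ept u u t = ept u u t' := by
  funext w; simp only [ept]; ring

/-- An edge as a path. -/
def edgeP {K : List (List V)} {u v : V} (h : Adj K u v) : Path (vtx h.left) (vtx h.right) where
  toContinuousMap := edgeC h
  source' := by ext w; simp [vtx, edgeC, ept]
  target' := by ext w; simp [vtx, edgeC, ept]

theorem edgeC_zero {K : List (List V)} {u v : V} (h : Adj K u v) : edgeC h 0 = vtx h.left :=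
  (edgeP h).source
theorem edgeC_one {K : List (List V)} {u v : V} (h : Adj K u v) : edgeC h 1 = vtx h.right :=
  (edgeP h).target

theorem smap_edge {φ : V → W} {K : List (List V)} {K' : List (List W)} (h : Simp φ K K')
    {u v : V} (a : Adj K u v) (t : I) : smap h (edgeC a t) = edgeC (a.map h) t := by
  ext w
  obtain ⟨s, hs, hu, hv⟩ := a
  have hu' : u ∈ verts K := mem_verts.2 ⟨s, hs, hu⟩
  have hv' : v ∈ verts K := mem_verts.2 ⟨s, hs, hv⟩
  show push (verts K) φ (ept u v t) w = ept (φ u) (φ v) t w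
  unfold push ept
  have : ∀ v' ∈ verts K, (if φ v' = w then
      (1 - (t : ℝ)) * (if u = v' then 1 else 0) + t * (if v = v' then 1 else 0) else 0) =
      (if u = v' then (1 - (t : ℝ)) * (if φ v' = w then 1 else 0) else 0) +
      (if v = v' then (t : ℝ) * (if φ v' = w then 1 else 0) else 0) := fun v' _ => by
    split_ifs <;> simp
  rw [Finset.sum_congr rfl this, Finset.sum_add_distrib, Finset.sum_ite_eq, Finset.sum_ite_eq,
    if_pos hu', if_pos hv']

theorem smap_vtx {φ : V → W} {K : List (List V)} {K' : List (List W)} (h : Simp φ K K')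
    {v : V} (a : Adj K v v) : smap h (vtx a) = vtx (a.map h) := smap_edge h a 0

/-! ### Cocycles -/

/-- A group valued cocycle. -/
def Cocy {G : Type} [Group G] (K : List (List V)) (ω : V → V → G) : Prop :=
  ∀ s ∈ K, ∀ u ∈ s, ∀ v ∈ s, ∀ w ∈ s, ω u v * ω v w = ω u w

/-- Cohomologous cochains. -/
def Cohom {G : Type} [Group G] (K : List (List V)) (ω ω' : V → V → G) : Prop :=
  ∃ h : V → G, ∀ u v, Adj K u v → ω u v = h u * ω' u v * (h v)⁻¹

theorem Cocy.self {G : Type} [Group G] {K : List (List V)} {ω : V → V → G} (h : Cocy K ω) {u : V}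
    (a : Adj K u u) : ω u u = 1 := by
  obtain ⟨s, hs, hu, -⟩ := a
  simpa using h s hs u hu u hu u hu

theorem Cocy.symm {G : Type} [Group G] {K : List (List V)} {ω : V → V → G} (h : Cocy K ω)
    {u v : V} (a : Adj K u v) : ω v u = (ω u v)⁻¹ := by
  have := h.self a.left
  obtain ⟨s, hs, hu, hv⟩ := a
  rw [eq_inv_iff_mul_eq_one, ← mul_eq_one_comm, h s hs u hu v hv u hu, this]

theorem Cocy.comap {G : Type} [Group G] {φ : V → W} {K : List (List V)} {K' : List (List W)}
    (hφ : Simp φ K K') {ω : W → W → G} (h : Cocy K' ω) : Cocy K fun u v => ω (φ u) (φ v) :=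
  fun s hs u hu v hv w hw =>
    let ⟨t, ht, c⟩ := hφ s hs; h t ht _ (c u hu) _ (c v hv) _ (c w hw)

variable {Z : Type} [TopologicalSpace Z]

open Classical in
/-- The cocycle of a continuous map. -/
noncomputable def om {K : List (List V)} (z : Z) (f : C(real K, Z)) (u v : V) : Pi1 z :=
  if h : Adj K u v then cls z (f.comp (edgeC h)) else 1

theorem om_eq {K : List (List V)} (z : Z) (f : C(real K, Z)) {u v : V} (h : Adj K u v) :
    om z f u v = clsP z ((edgeP h).map f.continuous) := by
  unfold om; rw [dif_pos h]; exact cls_eq z _ _ fun _ => rfl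

theorem om_cocy {K : List (List V)} (z : Z) (f : C(real K, Z)) : Cocy K (om z f) := by
  intro s hs u hu v hv w hw
  have a : Adj K u v := ⟨s, hs, hu, hv⟩
  have b : Adj K v w := ⟨s, hs, hv, hw⟩
  have c : Adj K u w := ⟨s, hs, hu, hw⟩
  rw [om_eq z f a, om_eq z f b, om_eq z f c, ← clsP_trans, ← Path.map_trans]
  refine clsP_congr z (Path.Homotopic.map (lin_path _ _ fun y => ⟨s, hs, ?_, ept_mem hu hw y⟩) f)
  rw [Path.trans_apply]
  split_ifs
  · exact ept_mem hu hv _
  · exact ept_mem hv hw _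

theorem om_smap {φ : V → W} {K : List (List V)} {K' : List (List W)} (h : Simp φ K K') (z : Z)
    (f : C(real K', Z)) {u v : V} (a : Adj K u v) :
    om z (f.comp (smap h)) u v = om z f (φ u) (φ v) := by
  unfold om
  rw [dif_pos a, dif_pos (a.map h)]
  congr 1
  ext t
  exact congrArg f (smap_edge h a t)

end Pool.Agent.Lib.MP_4c90a8_lc
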