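import Mathlib
import Pool.Agent.Lib.MP_4c90a8_lc.Cx

/-! Maps out of graphs. -/

namespace Pool.Agent.Lib.MP_4c90a8_lc

set_option linter.unusedSectionVars false

open scoped unitInterval

variable {V : Type} [DecidableEq V] {Z : Type} [TopologicalSpace Z]

/-- All facets are (possibly degenerate) edges. -/
def Graph (K : List (List V)) : Prop := ∀ s ∈ K, ∃ u v, s = [u, v]

theorem graph_surj {K : List (List V)} (hK : Graph K) (x : real K) :
    ∃ u v, ∃ h : Adj K u v, ∃ t, edgeC h t = x := by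
  obtain ⟨x, s, hs, hx⟩ := x
  obtain ⟨u, v, rfl⟩ := hK s hs
  have a : Adj K u v := ⟨_, hs, by simp, by simp⟩
  by_cases huv : u = v
  · subst huv
    refine ⟨u, u, a, 0, Subtype.ext (funext fun w => ?_)⟩
    show ept u u (0 : I) w = x w
    have h1 := hx.2.2
    by_cases hw : u = w
    · subst hw; simp at h1; simp [ept, h1]
    · simp [ept, hw, hx.2.1 w (by simpa using Ne.symm hw)]
  · refine ⟨u, v, a, ⟨x v, hx.1 v, cell_le_one hx v⟩, Subtype.ext (funext fun w => ?_)⟩
    show ept u v (x v) w = x w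
    have h1 := hx.2.2
    simp [huv] at h1
    by_cases hw : u = w
    · subst hw; simp [ept, Ne.symm huv]; linarith
    · by_cases hw' : v = w
      · subst hw'; simp [ept, huv]
      · simp [ept, hw, hw', hx.2.1 w (by simp [Ne.symm hw, Ne.symm hw'])]

/-- The point of the edge is the vertex `w`. -/
def IsEnd (u v : V) (t : I) (w : V) : Prop := (t = 0 ∧ w = u) ∨ (t = 1 ∧ w = v) ∨ (u = v ∧ w = u)

theorem ept_pos_left {u v : V} {t : I} (h : t ≠ 1) : ept u v t u ≠ 0 := by
  have h1 : (t : ℝ) < 1 := lt_of_le_of_ne t.2.2 fun e => h (Subtype.ext e)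
  have h0 := t.2.1
  unfold ept
  rw [if_pos rfl]
  split_ifs <;> intro e <;> linarith

theorem ept_pos_right {u v : V} {t : I} (h : t ≠ 0) : ept u v t v ≠ 0 := by
  have h1 : 0 < (t : ℝ) := lt_of_le_of_ne t.2.1 fun e => h (Subtype.ext e.symm)
  have h0 := t.2.2
  unfold ept
  split_ifs <;> simp_all

theorem isEnd_of {u v u' v' : V} {t t' : I} (h : ept u v t = ept u' v' t') {w : V}
    (hw : IsEnd u v t w) : IsEnd u' v' t' w := by
  have key : ∀ w', ept u' v' t' w' ≠ 0 → w' = w := fun w' hw' => by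
    rw [← h] at hw'
    rcases hw with ⟨rfl, rfl⟩ | ⟨rfl, rfl⟩ | ⟨rfl, rfl⟩
    · by_contra e; exact hw' (by simp [ept, Ne.symm e])
    · by_contra e; exact hw' (by simp [ept, Ne.symm e])
    · rcases ept_ne hw' with e | e <;> exact e
  by_cases h0 : t' = 0
  · exact Or.inl ⟨h0, (key u' (ept_pos_left (by rw [h0]; exact zero_ne_one))).symm⟩
  · by_cases h1 : t' = 1
    · exact Or.inr (Or.inl ⟨h1, (key v' (ept_pos_right h0)).symm⟩)
    · have a := key u' (ept_pos_left h1)
      have b := key v' (ept_pos_right h0)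
      exact Or.inr (Or.inr ⟨a.trans b.symm, a.symm⟩)

theorem ept_cases {u v u' v' : V} {t t' : I} (h : ept u v t = ept u' v' t') :
    (u = u' ∧ v = v' ∧ t = t') ∨ (u = v' ∧ v = u' ∧ t = unitInterval.symm t') ∨
      ∃ w, IsEnd u v t w ∧ IsEnd u' v' t' w := by
  by_cases h0 : t = 0
  · exact Or.inr (Or.inr ⟨u, Or.inl ⟨h0, rfl⟩, isEnd_of h (Or.inl ⟨h0, rfl⟩)⟩)
  by_cases h1 : t = 1
  · exact Or.inr (Or.inr ⟨v, Or.inr (Or.inl ⟨h1, rfl⟩), isEnd_of h (Or.inr (Or.inl ⟨h1, rfl⟩))⟩)
  by_cases h2 : u = v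
  · exact Or.inr (Or.inr ⟨u, Or.inr (Or.inr ⟨h2, rfl⟩), isEnd_of h (Or.inr (Or.inr ⟨h2, rfl⟩))⟩)
  have a := ept_ne (h ▸ ept_pos_left (u := u) (v := v) h1)
  have b := ept_ne (h ▸ ept_pos_right (u := u) (v := v) h0)
  have e := congrFun h v
  rcases a with rfl | rfl <;> rcases b with rfl | rfl
  · exact absurd rfl h2
  · refine Or.inl ⟨rfl, rfl, Subtype.ext ?_⟩
    simpa [ept, h2] using e
  · refine Or.inr (Or.inl ⟨rfl, rfl, Subtype.ext ?_⟩)
    simpa [ept, h2] using e
  · exact absurd rfl h2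

/-- Reversal of the unit interval. -/
def revI : C(I, I) := ⟨unitInterval.symm, unitInterval.continuous_symm⟩

theorem GE {K : List (List V)} (hK : Graph K) (p : V → Z) (Rel : V → V → C(I, Z) → Prop)
    (hex : ∀ u v, Adj K u v → ∃ q : C(I, Z), q 0 = p u ∧ q 1 = p v ∧ Rel u v q)
    (hsymm : ∀ u v q, Adj K u v → Rel u v q → Rel v u (q.comp revI))
    (hrefl : ∀ u, Adj K u u → Rel u u (ContinuousMap.const I (p u))) :
    ∃ g : C(real K, Z), (∀ u v (h : Adj K u v), Rel u v (g.comp (edgeC h))) ∧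
      ∀ v (h : Adj K v v), g (vtx h) = p v := by
  classical
  choose q hq0 hq1 hqR using hex
  obtain ⟨lo, -⟩ := exists_wellFoundedLT V
  let e : ∀ u v, Adj K u v → C(I, Z) := fun u v h =>
    if u < v then q u v h else if v < u then (q v u h.symm).comp revI
      else ContinuousMap.const I (p u)
  have e0 : ∀ u v h, e u v h 0 = p u := fun u v h => by
    simp only [e]; split_ifs
    · exact hq0 u v h
    · simpa [revI] using hq1 v u h.symm
    · rfl
  have es : ∀ u v h t, e v u h t = e u v h.symm (unitInterval.symm t) := fun u v h t => by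
    simp only [e]
    rcases lt_trichotomy u v with a | a | a
    · rw [if_neg (not_lt_of_gt a), if_pos a, if_pos a]; rfl
    · subst a; simp
    · rw [if_pos a, if_neg (not_lt_of_gt a), if_pos a]; simp [revI]
  have e1 : ∀ u v h, e u v h 1 = p v := fun u v h => by
    rw [es, unitInterval.symm_one, e0]
  have ee : ∀ u h t, e u u h t = p u := fun u h t => by simp [e]
  have eR : ∀ u v h, Rel u v (e u v h) := fun u v h => by
    simp only [e]; split_ifs with a b
    · exact hqR u v h
    · exact hsymm _ _ _ h.symm (hqR v u h.symm)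
    · obtain rfl : u = v := le_antisymm (not_lt.1 b) (not_lt.1 a)
      exact hrefl u h
  have eE : ∀ u v h t w, IsEnd u v t w → e u v h t = p w := fun u v h t w hw => by
    rcases hw with ⟨rfl, rfl⟩ | ⟨rfl, rfl⟩ | ⟨rfl, rfl⟩
    · exact e0 _ _ _
    · exact e1 _ _ _
    · exact ee _ _ _
  let E := {c : V × V // Adj K c.1 c.2}
  have : Finite E := by
    refine Set.Finite.subset (Finset.finite_toSet (verts K ×ˢ verts K)) ?_
    rintro ⟨u, v⟩ ⟨s, hs, hu, hv⟩
    simp only [Finset.coe_product, Set.mem_prod, Finset.mem_coe]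
    exact ⟨mem_verts.2 ⟨s, hs, hu⟩, mem_verts.2 ⟨s, hs, hv⟩⟩
  let π : C((Σ _ : E, I), real K) :=
    ⟨fun c => edgeC c.1.2 c.2, continuous_sigma fun c => (edgeC c.2).continuous⟩
  let G : C((Σ _ : E, I), Z) :=
    ⟨fun c => e _ _ c.1.2 c.2, continuous_sigma fun c => (e _ _ c.2).continuous⟩
  have hs : Function.Surjective π := fun x => by
    obtain ⟨u, v, h, t, rfl⟩ := graph_surj hK x
    exact ⟨⟨⟨(u, v), h⟩, t⟩, rfl⟩
  have hq : Topology.IsQuotientMap π := π.continuous.isClosedMap.isQuotientMap π.continuous hs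
  have hf : Function.FactorsThrough G π := by
    rintro ⟨⟨⟨u, v⟩, h⟩, t⟩ ⟨⟨⟨u', v'⟩, h'⟩, t'⟩ hh
    have hh' : ept u v t = ept u' v' t' := congrArg Subtype.val hh
    show e u v h t = e u' v' h' t'
    rcases ept_cases hh' with ⟨rfl, rfl, rfl⟩ | ⟨rfl, rfl, rfl⟩ | ⟨w, a, b⟩
    · rfl
    · exact (es _ _ _ _).symm
    · rw [eE _ _ _ _ _ a, eE _ _ _ _ _ b]
  have key : ∀ u v (h : Adj K u v) t, hq.lift G hf (edgeC h t) = e u v h t := fun u v h t =>
    congrArg (fun g : C((Σ _ : E, I), Z) => g ⟨⟨(u, v), h⟩, t⟩) (hq.lift_comp G hf)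
  refine ⟨hq.lift G hf, fun u v h => ?_, fun v h => (key v v h 0).trans (e0 _ _ _)⟩
  have : (hq.lift G hf).comp (edgeC h) = e u v h := ContinuousMap.ext (key u v h)
  rw [this]
  exact eR u v h

theorem cls_rev (z : Z) (q : C(I, Z)) : cls z (q.comp revI) = (cls z q)⁻¹ := by
  rw [cls_eq z (toPath q).symm (q.comp revI) fun _ => rfl, clsP_symm]; rfl

theorem cls_const (z x : Z) : cls z (ContinuousMap.const I x) = 1 := by
  rw [cls_eq z (Path.refl x) (ContinuousMap.const I x) fun _ => rfl, clsP_refl]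

/-- Realising a cocycle on a graph. -/
theorem GE_cocy {K : List (List V)} (hK : Graph K) (z : Z) (p : V → Z)
    (hp : ∀ v, Adj K v v → Joined z (p v)) (η : V → V → Pi1 z) (hη : Cocy K η) :
    ∃ g : C(real K, Z), (∀ u v, Adj K u v → om z g u v = η u v) ∧
      ∀ v (h : Adj K v v), g (vtx h) = p v := by
  obtain ⟨g, h1, h2⟩ := GE hK p (fun u v q => cls z q = η u v)
    (fun u v h => by
      obtain ⟨q, hq⟩ := exists_clsP (hp u h.left) (hp v h.right) (η u v)
      exact ⟨q.toContinuousMap, q.source, q.target, (cls_path z q).trans hq⟩)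
    (fun u v q h hq => by rw [cls_rev, hq, hη.symm h])
    (fun u h => by rw [cls_const, hη.self h])
  refine ⟨g, fun u v h => ?_, h2⟩
  unfold om; rw [dif_pos h]; exact h1 u v h

/-- Maps from a graph with cohomologous cocycles are homotopic. -/
theorem GH {K : List (List V)} (hK : Graph K) (z : Z) (g g' : C(real K, Z))
    (hg : ∀ v (h : Adj K v v), Joined z (g (vtx h))) (hg' : ∀ v (h : Adj K v v), Joined z (g' (vtx h)))
    (hc : Cohom K (om z g) (om z g')) : g.Homotopic g' := by
  classical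
  obtain ⟨h, hh⟩ := hc
  choose c hc using fun v (a : Adj K v v) => exists_clsP (hg v a) (hg' v a) (h v)
  let p : V → C(I, Z) := fun v => if a : Adj K v v then (c v a).toContinuousMap
    else ContinuousMap.const I z
  have hp : ∀ v (a : Adj K v v) t, p v t = c v a t := fun v a t => by
    simp only [p]; rw [dif_pos a]; rfl
  obtain ⟨G, h1, -⟩ := GE hK p
    (fun u v q => ∀ (a : Adj K u v) t, q t 0 = g (edgeC a t) ∧ q t 1 = g' (edgeC a t))
    (fun u v a => by
      obtain ⟨F, f1, f2, f3, f4⟩ := square_fill ((edgeP a).map g.continuous) (c v a.right)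
        (c u a.left) ((edgeP a).map g'.continuous) (clsP_inj (hg u a.left) (by
          rw [clsP_trans, clsP_trans, ← om_eq, ← om_eq, hc, hc, hh u v a]; group))
      refine ⟨F.curry, ?_, ?_, fun _ t => ⟨f1 t, f2 t⟩⟩
      · ext t; rw [hp u a.left]; exact f3 t
      · ext t; rw [hp v a.right]; exact f4 t)
    (fun u v q a hq a' t => by
      have : edgeC a' t = edgeC a (unitInterval.symm t) := by
        ext w; simp [edgeC, ept]; ring
      rw [this]
      exact hq a _)
    (fun u a a' t => by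
      have : edgeC a' t = vtx a := Subtype.ext (ept_self u _ _)
      rw [this]
      show p u 0 = _ ∧ p u 1 = _
      rw [hp u a, hp u a]
      exact ⟨(c u a).source, (c u a).target⟩)
  refine ⟨⟨⟨fun x => G x.2 x.1, by fun_prop⟩, fun x => ?_, fun x => ?_⟩⟩
  · obtain ⟨u, v, a, t, rfl⟩ := graph_surj hK x
    exact (h1 u v a a t).1
  · obtain ⟨u, v, a, t, rfl⟩ := graph_surj hK x
    exact (h1 u v a a t).2

theorem om_const {K : List (List V)} (z : Z) (u v : V) :
    om z (ContinuousMap.const (real K) z) u v = 1 := by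
  unfold om
  split_ifs
  · exact cls_const z z
  · rfl

/-- A coboundary. -/
def Cobd {G : Type} [Group G] (K : List (List V)) (ω : V → V → G) : Prop :=
  ∃ h : V → G, ∀ u v, Adj K u v → ω u v = (h u)⁻¹ * h v

theorem GH_null {K : List (List V)} (hK : Graph K) (z : Z) (g : C(real K, Z))
    (hg : ∀ v (h : Adj K v v), Joined z (g (vtx h))) (hc : Cobd K (om z g)) :
    g.Homotopic (ContinuousMap.const _ z) := by
  obtain ⟨h, hh⟩ := hc
  refine GH hK z g _ hg (fun _ _ => Joined.refl z) ⟨fun v => (h v)⁻¹, fun u v a => ?_⟩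
  rw [hh u v a, om_const]; simp

end Pool.Agent.Lib.MP_4c90a8_lc
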