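import Mathlib
import Pool.Agent.Lib.MP_4c90a8_lc.Graph

/-! On a contractible complex every cocycle is a coboundary. -/

namespace Pool.Agent.Lib.MP_4c90a8_lc

set_option linter.unusedSectionVars false

open scoped unitInterval

variable {V : Type} [DecidableEq V]

theorem real_exists {K : List (List V)} (x : real K) : ∃ v, 0 < x.1 v := by
  obtain ⟨s, -, hx⟩ := x.2
  obtain ⟨v, -, hv⟩ := cell_exists hx
  exact ⟨v, hv⟩

/-- The covering space of a cocycle. -/
noncomputable def core {G : Type} [Group G] [TopologicalSpace G] [DiscreteTopology G]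
    {K : List (List V)} {ω : V → V → G} (hω : Cocy K ω) : FiberBundleCore V (real K) G where
  baseSet v := {x | 0 < x.1 v}
  isOpen_baseSet v := isOpen_lt continuous_const (cont_coord v)
  indexAt x := (real_exists x).choose
  mem_baseSet_at x := (real_exists x).choose_spec
  coordChange u v _ g := g * ω u v
  coordChange_self i x hx g := by
    obtain ⟨s, hs, h⟩ := x.2
    have : i ∈ s := cell_supp h (ne_of_gt hx)
    rw [hω.self ⟨s, hs, this, this⟩, mul_one]
  continuousOn_coordChange i j :=
    ((continuous_of_discreteTopology (f := fun g : G => g * ω i j)).comp continuous_snd).continuousOn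
  coordChange_comp i j k x hx g := by
    obtain ⟨s, hs, h⟩ := x.2
    rw [mul_assoc, hω s hs i (cell_supp h (ne_of_gt hx.1.1)) j (cell_supp h (ne_of_gt hx.1.2)) k
      (cell_supp h (ne_of_gt hx.2))]

theorem cobd_of_contractible {G : Type} [Group G] {K : List (List V)} [ContractibleSpace (real K)]
    {ω : V → V → G} (hω : Cocy K ω) : Cobd K ω := by
  classical
  let _ : TopologicalSpace G := ⊥
  have : DiscreteTopology G := ⟨rfl⟩
  let Z := core hω
  have cov : IsCoveringMap Z.proj := FiberBundle.isCoveringMap
  obtain ⟨y, ⟨H⟩⟩ := id_nullhomotopic (real K)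
  let e0 : Z.TotalSpace := ⟨y, (1 : G)⟩
  let F := cov.liftHomotopy H.symm.toContinuousMap (ContinuousMap.const _ e0)
    (fun a => H.symm.apply_zero a)
  have hF : ∀ x, (F (1, x)).1 = x := fun x =>
    (congrFun (cov.liftHomotopy_lifts H.symm.toContinuousMap (ContinuousMap.const _ e0)
      (fun a => H.symm.apply_zero a)) (1, x)).trans (H.symm.apply_one x)
  let c : V → real K → G := fun i x => (Z.localTriv i (F (1, x))).2
  have c1 : ∀ i j (x : real K), 0 < x.1 i → 0 < x.1 j → c j x = c i x * ω i j := by
    intro i j x hi hj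
    simp only [c, FiberBundleCore.localTriv_apply]
    refine (Z.coordChange_comp _ i j _ ⟨⟨Z.mem_baseSet_at _, ?_⟩, ?_⟩ _).symm
    · rw [hF]; exact hi
    · rw [hF]; exact hj
  have c2 : ∀ i (γ : C(I, real K)), (∀ t, 0 < (γ t).1 i) → c i (γ 0) = c i (γ 1) := by
    intro i γ hγ
    refine PreconnectedSpace.constant (f := fun t => c i (γ t)) inferInstance ?_
    refine continuous_snd.comp ((Z.localTriv i).continuousOn.comp_continuous
      (f := fun t => F (1, γ t)) (by fun_prop) fun t => ?_)
    rw [FiberBundleCore.mem_localTriv_source]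
    show (F (1, γ t)).1 ∈ Z.baseSet i
    rw [hF]; exact hγ t
  let hf : I := ⟨1 / 2, by norm_num, by norm_num⟩
  have c3 : ∀ u v (a : Adj K u v), c u (vtx a.left) = c u (edgeC a hf) := by
    intro u v a
    have := c2 u ((edgeC a).comp ⟨fun t => t * hf, by fun_prop⟩) fun t => by
      show 0 < ept u v (t * (1 / 2)) u
      have := t.2.1
      have := t.2.2
      unfold ept
      rw [if_pos rfl]
      split_ifs <;> linarith
    simpa [edgeC_zero] using this
  refine ⟨fun v => if a : Adj K v v then c v (vtx a) else 1, fun u v a => ?_⟩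
  simp only [dif_pos a.left, dif_pos a.right]
  have m : edgeC a.symm hf = edgeC a hf := by
    ext w; simp [edgeC, ept, hf]; ring_nf
  have p : ∀ u v (a : Adj K u v), 0 < (edgeC a hf).1 u := fun u v a => by
    show 0 < ept u v (1 / 2) u
    unfold ept
    rw [if_pos rfl]
    split_ifs <;> norm_num
  rw [c3 u v a, c3 v u a.symm, m, c1 u v _ (p u v a) (m ▸ p v u a.symm)]
  group

end Pool.Agent.Lib.MP_4c90a8_lc
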