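import Mathlib
import Pool.Agent.Lib.MP_4c90a8_lc.Graph

/-! Simplicial mapping cylinders. -/

namespace Pool.Agent.Lib.MP_4c90a8_lc

set_option linter.unusedSectionVars false

open scoped unitInterval

variable {A B V : Type} [DecidableEq A] [DecidableEq B] [DecidableEq V]

/-- A facet of the mapping cylinder. -/
def facet (rk : A → ℕ) (ι ψ : A → V) (s : List A) (a : A) : List V :=
  (s.filter fun v => decide (rk v ≤ rk a)).map ι ++ (s.filter fun v => decide (rk a ≤ rk v)).map ψ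

/-- The mapping cylinder. -/
def half (rk : A → ℕ) (L : List (List A)) (K : List (List B)) (ι : A → V) (κ : B → V)
    (φ : A → B) : List (List V) :=
  (L.flatMap fun s => s.map (facet rk ι (fun a => κ (φ a)) s)) ++ K.map (List.map κ)

theorem mem_facet {rk : A → ℕ} {ι ψ : A → V} {s : List A} {a : A} {v : V} :
    v ∈ facet rk ι ψ s a ↔ (∃ u ∈ s, rk u ≤ rk a ∧ v = ι u) ∨ ∃ u ∈ s, rk a ≤ rk u ∧ v = ψ u := by
  simp only [facet, List.mem_append, List.mem_map, List.mem_filter, decide_eq_true_eq]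
  constructor
  · rintro (⟨u, ⟨h1, h2⟩, rfl⟩ | ⟨u, ⟨h1, h2⟩, rfl⟩)
    · exact Or.inl ⟨u, h1, h2, rfl⟩
    · exact Or.inr ⟨u, h1, h2, rfl⟩
  · rintro (⟨u, h1, h2, rfl⟩ | ⟨u, h1, h2, rfl⟩)
    · exact Or.inl ⟨u, ⟨h1, h2⟩, rfl⟩
    · exact Or.inr ⟨u, ⟨h1, h2⟩, rfl⟩

variable {rk : A → ℕ} {L : List (List A)} {K : List (List B)} {ι : A → V} {κ : B → V} {φ : A → B}

theorem mem_half {t : List V} : t ∈ half rk L K ι κ φ ↔
    (∃ s ∈ L, ∃ a ∈ s, t = facet rk ι (fun a => κ (φ a)) s a) ∨ ∃ s ∈ K, t = s.map κ := by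
  simp only [half, List.mem_append, List.mem_flatMap, List.mem_map, eq_comm]

theorem facet_mem {s : List A} (hs : s ∈ L) {a : A} (ha : a ∈ s) :
    facet rk ι (fun a => κ (φ a)) s a ∈ half rk L K ι κ φ :=
  mem_half.2 (Or.inl ⟨s, hs, a, ha, rfl⟩)

theorem simp_kappa : Simp κ K (half rk L K ι κ φ) := fun s hs =>
  ⟨s.map κ, mem_half.2 (Or.inr ⟨s, hs, rfl⟩), fun _ hv => List.mem_map_of_mem hv⟩

theorem simp_iota (hφ : Simp φ L K) : Simp ι L (half rk L K ι κ φ) := fun s hs => by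
  rcases s.toFinset.eq_empty_or_nonempty with h | h
  · obtain ⟨t, ht, -⟩ := hφ s hs
    obtain ⟨t', ht', -⟩ := simp_kappa (rk := rk) (L := L) (ι := ι) (κ := κ) (φ := φ) t ht
    refine ⟨t', ht', fun v hv => ?_⟩
    have : v ∈ s.toFinset := List.mem_toFinset.2 hv
    rw [h] at this; simp at this
  · obtain ⟨a, ha, hm⟩ := s.toFinset.exists_max_image rk h
    exact ⟨_, facet_mem hs (List.mem_toFinset.1 ha), fun v hv =>
      mem_facet.2 (Or.inl ⟨v, hv, hm v (List.mem_toFinset.2 hv), rfl⟩)⟩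

theorem simp_rho (hφ : Simp φ L K) {ρ : V → B} (h1 : ∀ a, ρ (ι a) = φ a) (h2 : ∀ b, ρ (κ b) = b) :
    Simp ρ (half rk L K ι κ φ) K := fun t ht => by
  rcases mem_half.1 ht with ⟨s, hs, a, ha, rfl⟩ | ⟨s, hs, rfl⟩
  · obtain ⟨t', ht', h⟩ := hφ s hs
    refine ⟨t', ht', fun v hv => ?_⟩
    rcases mem_facet.1 hv with ⟨u, hu, -, rfl⟩ | ⟨u, hu, -, rfl⟩
    · rw [h1]; exact h u hu
    · rw [h2]; exact h u hu
  · refine ⟨s, hs, fun v hv => ?_⟩
    obtain ⟨b, hb, rfl⟩ := List.mem_map.1 hv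
    rw [h2]; exact hb

open Classical in
/-- The chain of contiguous maps. -/
noncomputable def rhoK (rk : A → ℕ) (ι : A → V) (κ : B → V) (ρ : V → B) (k : ℕ) (v : V) : V :=
  if ∃ a, v = ι a ∧ k ≤ rk a then κ (ρ v) else v

theorem rhoK_contig (hι : Function.Injective ι) {ρ : V → B} (h1 : ∀ a, ρ (ι a) = φ a)
    (h2 : ∀ b, ρ (κ b) = b) (k : ℕ) : ∀ t ∈ half rk L K ι κ φ, ∃ t' ∈ half rk L K ι κ φ,
      ∀ v ∈ t, rhoK rk ι κ ρ k v ∈ t' ∧ rhoK rk ι κ ρ (k + 1) v ∈ t' := by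
  have e1 : ∀ k a, rhoK rk ι κ ρ k (ι a) = if k ≤ rk a then κ (φ a) else ι a := fun k a => by
    simp only [rhoK, hι.eq_iff, exists_eq_left', h1]
  have e2 : ∀ k b, rhoK rk ι κ ρ k (κ b) = κ b := fun k b => by
    simp only [rhoK, h2, ite_self]
  intro t ht
  rcases mem_half.1 ht with ⟨s, hs, a, ha, rfl⟩ | ⟨s, hs, rfl⟩
  · by_cases hk : rk a < k
    · refine ⟨_, ht, fun v hv => ?_⟩
      rcases mem_facet.1 hv with ⟨u, hu, h, rfl⟩ | ⟨u, hu, h, rfl⟩
      · rw [e1, e1, if_neg (by omega), if_neg (by omega)]; exact ⟨hv, hv⟩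
      · rw [e2, e2]; exact ⟨hv, hv⟩
    · obtain ⟨a', ha', hm⟩ := (s.toFinset.filter fun v => k ≤ rk v).exists_min_image rk
        ⟨a, by simp [ha]; omega⟩
      simp only [Finset.mem_filter, List.mem_toFinset, and_imp] at ha' hm
      refine ⟨_, facet_mem hs ha'.1, fun v hv => ?_⟩
      rcases mem_facet.1 hv with ⟨u, hu, h, rfl⟩ | ⟨u, hu, h, rfl⟩
      · rw [e1, e1]
        constructor
        · split_ifs with c
          · exact mem_facet.2 (Or.inr ⟨u, hu, hm u hu c, rfl⟩)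
          · exact mem_facet.2 (Or.inl ⟨u, hu, by omega, rfl⟩)
        · split_ifs with c
          · exact mem_facet.2 (Or.inr ⟨u, hu, hm u hu (by omega), rfl⟩)
          · exact mem_facet.2 (Or.inl ⟨u, hu, by omega, rfl⟩)
      · rw [e2, e2, and_self]
        exact mem_facet.2 (Or.inr ⟨u, hu, hm u hu (by omega), rfl⟩)
  · refine ⟨_, ht, fun v hv => ?_⟩
    obtain ⟨b, hb, rfl⟩ := List.mem_map.1 hv
    rw [e2, e2]; exact ⟨hv, hv⟩

theorem half_retract (hφ : Simp φ L K) (hι : Function.Injective ι) {ρ : V → B}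
    (h1 : ∀ a, ρ (ι a) = φ a) (h2 : ∀ b, ρ (κ b) = b) :
    ((smap (simp_kappa (rk := rk) (L := L) (K := K) (ι := ι) (κ := κ) (φ := φ))).comp
      (smap (simp_rho hφ h1 h2))).Homotopic (ContinuousMap.id _) := by
  have hc := rhoK_contig (rk := rk) (L := L) (K := K) hι h1 h2
  have hS : ∀ k, Simp (rhoK rk ι κ ρ k) (half rk L K ι κ φ) (half rk L K ι κ φ) := fun k t ht =>
    let ⟨t', ht', h⟩ := hc k t ht; ⟨t', ht', fun v hv => (h v hv).1⟩
  have step : ∀ k, (smap (hS 0)).Homotopic (smap (hS k)) := fun k => by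
    induction k with
    | zero => exact .refl _
    | succ k ih =>
      refine ih.trans (lin_homotopic _ _ fun y => ?_)
      obtain ⟨t, ht, hy⟩ := y.2
      obtain ⟨t', ht', h⟩ := hc k t ht
      exact ⟨t', ht', smap_mem _ _ fun v hv => (h v (cell_supp hy hv)).1,
        smap_mem _ _ fun v hv => (h v (cell_supp hy hv)).2⟩
  let n := (verts L).sup rk + 1
  refine (ContinuousMap.Homotopic.trans (lin_homotopic _ _ fun y => ?_) (step n)).trans
    (lin_homotopic _ _ fun y => ?_)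
  · obtain ⟨t, ht, hy⟩ := y.2
    obtain ⟨t', ht', h⟩ := simp_rho (rk := rk) hφ h1 h2 t ht
    refine ⟨t'.map κ, mem_half.2 (Or.inr ⟨t', ht', rfl⟩), smap_mem simp_kappa _ fun w hw => ?_,
      smap_mem _ _ fun v hv => ?_⟩
    · obtain ⟨v, hv, rfl⟩ := smap_ne _ _ hw
      exact List.mem_map_of_mem (h v (cell_supp hy hv))
    · have hv' := cell_supp hy hv
      unfold rhoK
      split_ifs with c
      · exact List.mem_map_of_mem (h v hv')
      · have := h v hv'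
        rcases mem_half.1 ht with ⟨s, hs, a, ha, rfl⟩ | ⟨s, hs, rfl⟩
        · rcases mem_facet.1 hv' with ⟨u, hu, -, rfl⟩ | ⟨u, hu, -, rfl⟩
          · exact absurd ⟨u, rfl, Nat.zero_le _⟩ c
          · rw [h2] at this; exact List.mem_map_of_mem this
        · obtain ⟨b, hb, rfl⟩ := List.mem_map.1 hv'
          rw [h2] at this; exact List.mem_map_of_mem this
  · obtain ⟨t, ht, hy⟩ := y.2
    refine ⟨t, ht, smap_mem _ _ fun v hv => ?_, hy⟩
    have hv' := cell_supp hy hv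
    unfold rhoK
    split_ifs with c
    · obtain ⟨a', rfl, ha'⟩ := c
      rcases mem_half.1 ht with ⟨s, hs, a, ha, rfl⟩ | ⟨s, hs, rfl⟩
      · rcases mem_facet.1 hv' with ⟨u, hu, -, e⟩ | ⟨u, hu, -, e⟩
        · obtain rfl := hι e
          have := Finset.le_sup (f := rk) (mem_verts.2 ⟨s, hs, hu⟩)
          omega
        · rw [e, h2, ← e]; exact hv'
      · obtain ⟨b, hb, e⟩ := List.mem_map.1 hv'
        rw [← e, h2, e]; exact hv'
    · exact hv'

theorem half_cohom {G : Type} [Group G] {ω : V → V → G} (hω : Cocy (half rk L K ι κ φ) ω) :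
    Cohom L (fun u v => ω (ι u) (ι v)) (fun u v => ω (κ (φ u)) (κ (φ v))) := by
  refine ⟨fun u => ω (ι u) (κ (φ u)), ?_⟩
  have key : ∀ u v, Adj L u v → rk u ≤ rk v →
      ω (ι u) (ι v) * ω (ι v) (κ (φ v)) = ω (ι u) (κ (φ u)) * ω (κ (φ u)) (κ (φ v)) ∧
      ω (ι v) (ι u) * ω (ι u) (κ (φ u)) = ω (ι v) (κ (φ v)) * ω (κ (φ v)) (κ (φ u)) := by
    rintro u v ⟨s, hs, hu, hv⟩ h
    have a1 : ι u ∈ facet rk ι (fun a => κ (φ a)) s v := mem_facet.2 (Or.inl ⟨u, hu, h, rfl⟩)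
    have a2 : ι v ∈ facet rk ι (fun a => κ (φ a)) s v := mem_facet.2 (Or.inl ⟨v, hv, le_rfl, rfl⟩)
    have a3 : κ (φ v) ∈ facet rk ι (fun a => κ (φ a)) s v :=
      mem_facet.2 (Or.inr ⟨v, hv, le_rfl, rfl⟩)
    have b1 : ι u ∈ facet rk ι (fun a => κ (φ a)) s u := mem_facet.2 (Or.inl ⟨u, hu, le_rfl, rfl⟩)
    have b2 : κ (φ u) ∈ facet rk ι (fun a => κ (φ a)) s u :=
      mem_facet.2 (Or.inr ⟨u, hu, le_rfl, rfl⟩)
    have b3 : κ (φ v) ∈ facet rk ι (fun a => κ (φ a)) s u := mem_facet.2 (Or.inr ⟨v, hv, h, rfl⟩)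
    have A := hω _ (facet_mem hs hv)
    have B := hω _ (facet_mem hs hu)
    constructor
    · rw [A _ a1 _ a2 _ a3, B _ b1 _ b2 _ b3]
    · rw [← B _ b1 _ b3 _ b2, ← mul_assoc, A _ a2 _ a1 _ a3]
  intro u v h
  rcases le_total (rk u) (rk v) with c | c
  · rw [← (key u v h c).1]; simp
  · rw [← (key v u h.symm c).2]; simp

/-- Dimension bound: every facet has at most `n` vertices. -/
def Dim (n : ℕ) (K : List (List V)) : Prop := ∀ s ∈ K, s.toFinset.card ≤ n

theorem card_map_le (s : List A) (f : A → V) : (s.map f).toFinset.card ≤ s.toFinset.card := by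
  have : (s.map f).toFinset = s.toFinset.image f := by ext; simp
  rw [this]; exact Finset.card_image_le

theorem half_dim {n : ℕ} (hL : Dim n L) (hK : Dim (n + 1) K)
    (hrk : ∀ s ∈ L, ∀ u ∈ s, ∀ v ∈ s, rk u = rk v → u = v) : Dim (n + 1) (half rk L K ι κ φ) := by
  intro t ht
  rcases mem_half.1 ht with ⟨s, hs, a, ha, rfl⟩ | ⟨s, hs, rfl⟩
  · unfold facet
    rw [List.toFinset_append]
    refine (Finset.card_union_le _ _).trans ((Nat.add_le_add (card_map_le _ _)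
      (card_map_le _ _)).trans ?_)
    rw [← Finset.card_union_add_card_inter]
    refine Nat.add_le_add ((Finset.card_le_card fun v hv => ?_).trans (hL s hs))
      (Finset.card_le_one.2 fun u hu v hv => ?_)
    · simp only [Finset.mem_union, List.mem_toFinset, List.mem_filter] at hv ⊢
      tauto
    · simp only [Finset.mem_inter, List.mem_toFinset, List.mem_filter, decide_eq_true_eq] at hu hv
      exact hrk s hs u hu.1.1 v hv.1.1 (by omega)
  · exact (card_map_le _ _).trans (hK s hs)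

end Pool.Agent.Lib.MP_4c90a8_lc
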