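import Mathlib
import Pool.Agent.Lib.MP_4c90a8_lc.Cls

/-! A Mayer-Vietoris principle for null-homotopies. -/

namespace Pool.Agent.Lib.MP_4c90a8_lc

open scoped unitInterval

/-- Data of a space covered by two pieces with a collared intersection. -/
structure MVData (Y L M1 M2 : Type) [TopologicalSpace Y] [TopologicalSpace L]
    [TopologicalSpace M1] [TopologicalSpace M2] where
  τ : C(Y, ℝ)
  d : C(Y, Y)
  hd : d.Homotopic (ContinuousMap.id Y)
  i1 : C(M1, Y)
  i2 : C(M2, Y)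
  j1 : C(L, M1)
  j2 : C(L, M2)
  inj1 : Function.Injective i1
  inj2 : Function.Injective i2
  hij : ∀ l, i1 (j1 l) = i2 (j2 l)
  D1 : C({y // 1 / 2 ≤ τ y}, M1)
  D2 : C({y // τ y ≤ 0}, M2)
  r : C({y // 0 ≤ τ y ∧ τ y ≤ 1 / 2}, L)
  hD1 : ∀ y, i1 (D1 y) = d y
  hD2 : ∀ y, i2 (D2 y) = d y
  hr : ∀ y, i1 (j1 (r y)) = d y

variable {Y L M1 M2 Z : Type} [TopologicalSpace Y] [TopologicalSpace L]
    [TopologicalSpace M1] [TopologicalSpace M2] [TopologicalSpace Z]

theorem MV_base [LocallyCompactSpace L] [LocallyCompactSpace M1] [LocallyCompactSpace M2]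
    (m : MVData Y L M1 M2) (f : C(Y, Z)) (z : Z)
    (P1 : Path (f.comp m.i1) (ContinuousMap.const M1 z))
    (P2 : Path (f.comp m.i2) (ContinuousMap.const M2 z))
    {F : C(L, Z)} (Q1 Q2 : Path F (ContinuousMap.const L z))
    (hQ1 : ∀ t l, Q1 t l = P1 t (m.j1 l)) (hQ2 : ∀ t l, Q2 t l = P2 t (m.j2 l))
    (hQ : Q2.Homotopic Q1) : f.Homotopic (ContinuousMap.const Y z) := by
  classical
  obtain ⟨K⟩ := hQ
  have h1 : ∀ y h h', m.D1 ⟨y, h⟩ = m.j1 (m.r ⟨y, h'⟩) := fun y h h' =>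
    m.inj1 ((m.hD1 _).trans (m.hr ⟨y, h'⟩).symm)
  have h2 : ∀ y h h', m.D2 ⟨y, h⟩ = m.j2 (m.r ⟨y, h'⟩) := fun y h h' =>
    m.inj2 ((m.hD2 _).trans ((m.hr ⟨y, h'⟩).symm.trans (m.hij _)))
  have two : ∀ y : Y, 0 ≤ m.τ y ∧ m.τ y ≤ 1 / 2 → 2 * m.τ y ∈ I := fun y h =>
    ⟨by linarith [h.1], by linarith [h.2]⟩
  let H : I × Y → Z := fun p =>
    if h : m.τ p.2 ≤ 0 then P2 p.1 (m.D2 ⟨p.2, h⟩)
    else if h' : m.τ p.2 ≤ 1 / 2 then
      K (⟨2 * m.τ p.2, two _ ⟨(not_le.1 h).le, h'⟩⟩, p.1) (m.r ⟨p.2, (not_le.1 h).le, h'⟩)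
    else P1 p.1 (m.D1 ⟨p.2, (not_le.1 h').le⟩)
  have eA : ∀ (p : I × Y) (h : m.τ p.2 ≤ 0), H p = P2 p.1 (m.D2 ⟨p.2, h⟩) := fun p h => by
    simp only [H]; rw [dif_pos h]
  have eB : ∀ (p : I × Y) (h : 0 ≤ m.τ p.2 ∧ m.τ p.2 ≤ 1 / 2),
      H p = K (⟨2 * m.τ p.2, two _ h⟩, p.1) (m.r ⟨p.2, h⟩) := fun p h => by
    by_cases h0 : m.τ p.2 ≤ 0
    · rw [eA p h0, h2 _ h0 h, ← hQ2]
      have : (⟨2 * m.τ p.2, two _ h⟩ : I) = 0 := Subtype.ext (by
        simp only [Set.Icc.coe_zero]; linarith [h.1])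
      rw [this, K.apply_zero]; rfl
    · simp only [H]; rw [dif_neg h0, dif_pos h.2]
  have eC : ∀ (p : I × Y) (h : 1 / 2 ≤ m.τ p.2), H p = P1 p.1 (m.D1 ⟨p.2, h⟩) := fun p h => by
    by_cases h0 : m.τ p.2 ≤ 1 / 2
    · have h' : 0 ≤ m.τ p.2 ∧ m.τ p.2 ≤ 1 / 2 := ⟨by linarith, h0⟩
      rw [eB p h', h1 _ h h', ← hQ1]
      have : (⟨2 * m.τ p.2, two _ h'⟩ : I) = 1 := Subtype.ext (by
        simp only [Set.Icc.coe_one]; linarith)
      rw [this, K.apply_one]; rfl
    · simp only [H]; rw [dif_neg (by linarith), dif_neg h0]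
  have hτ : Continuous fun p : I × Y => m.τ p.2 := by fun_prop
  have cA : ContinuousOn H {p | m.τ p.2 ≤ 0} := by
    rw [continuousOn_iff_continuous_domRestrict]
    have : Set.domRestrict {p : I × Y | m.τ p.2 ≤ 0} H = fun p => P2 p.1.1 (m.D2 ⟨p.1.2, p.2⟩) :=
      funext fun p => eA p.1 p.2
    rw [this]
    fun_prop
  have cB : ContinuousOn H {p | 0 ≤ m.τ p.2 ∧ m.τ p.2 ≤ 1 / 2} := by
    rw [continuousOn_iff_continuous_domRestrict]
    have : Set.domRestrict {p : I × Y | 0 ≤ m.τ p.2 ∧ m.τ p.2 ≤ 1 / 2} H =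
        fun p => K (⟨2 * m.τ p.1.2, two _ p.2⟩, p.1.1) (m.r ⟨p.1.2, p.2⟩) :=
      funext fun p => eB p.1 p.2
    rw [this]
    have hK := K.continuous
    refine Continuous.eval (hK.comp ?_) ?_ <;> fun_prop
  have cC : ContinuousOn H {p | 1 / 2 ≤ m.τ p.2} := by
    rw [continuousOn_iff_continuous_domRestrict]
    have : Set.domRestrict {p : I × Y | 1 / 2 ≤ m.τ p.2} H = fun p => P1 p.1.1 (m.D1 ⟨p.1.2, p.2⟩) :=
      funext fun p => eC p.1 p.2
    rw [this]
    fun_prop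
  have clA : IsClosed {p : I × Y | m.τ p.2 ≤ 0} := isClosed_le hτ continuous_const
  have clB : IsClosed {p : I × Y | 0 ≤ m.τ p.2 ∧ m.τ p.2 ≤ 1 / 2} :=
    (isClosed_le continuous_const hτ).inter (isClosed_le hτ continuous_const)
  have clC : IsClosed {p : I × Y | 1 / 2 ≤ m.τ p.2} := isClosed_le continuous_const hτ
  have cH : Continuous H := by
    have := (cA.union_of_isClosed cB clA clB).union_of_isClosed cC (clA.union clB) clC
    rw [← continuousOn_univ]
    refine this.mono fun p _ => ?_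
    by_cases a : m.τ p.2 ≤ 0
    · exact Or.inl (Or.inl a)
    · by_cases b : m.τ p.2 ≤ 1 / 2
      · exact Or.inl (Or.inr ⟨(not_le.1 a).le, b⟩)
      · exact Or.inr (not_le.1 b).le
  have key : (f.comp m.d).Homotopic (ContinuousMap.const Y z) := by
    refine ⟨⟨⟨H, cH⟩, fun y => ?_, fun y => ?_⟩⟩
    · show H (0, y) = f (m.d y)
      by_cases a : m.τ y ≤ 0
      · rw [eA _ a, P2.source, ← m.hD2 ⟨y, a⟩]; rfl
      · by_cases b : m.τ y ≤ 1 / 2
        · have h' : 0 ≤ m.τ y ∧ m.τ y ≤ 1 / 2 := ⟨(not_le.1 a).le, b⟩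
          rw [eB _ h', K.source, ← Q1.source, hQ1, P1.source, ← m.hr ⟨y, h'⟩]; rfl
        · rw [eC _ (not_le.1 b).le, P1.source, ← m.hD1 ⟨y, (not_le.1 b).le⟩]; rfl
    · show H (1, y) = z
      by_cases a : m.τ y ≤ 0
      · rw [eA _ a, P2.target]; rfl
      · by_cases b : m.τ y ≤ 1 / 2
        · have h' : 0 ≤ m.τ y ∧ m.τ y ≤ 1 / 2 := ⟨(not_le.1 a).le, b⟩
          rw [eB _ h', K.target]; rfl
        · rw [eC _ (not_le.1 b).le, P1.target]; rfl
  exact (((ContinuousMap.Homotopic.refl f).comp m.hd).symm).trans key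

/-- A loop of maps as a map to the loop space. -/
def toOm [LocallyCompactSpace L] {z : Z}
    (γ : Path (ContinuousMap.const L z) (ContinuousMap.const L z)) : C(L, Path z z) where
  toFun l := ⟨⟨fun t => γ t l, by fun_prop⟩, by simp, by simp⟩
  continuous_toFun := Path.continuous_uncurry_iff.1 (by
    show Continuous fun p : L × I => γ p.2 p.1
    fun_prop)

/-- A map to the loop space as a loop of maps. -/
def ofOm {z : Z} (k : C(L, Path z z)) :
    Path (ContinuousMap.const L z) (ContinuousMap.const L z) where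
  toFun t := ⟨fun l => k l t, by fun_prop⟩
  continuous_toFun := ContinuousMap.continuous_of_continuous_uncurry _ (by
    show Continuous fun p : I × L => k p.2 p.1
    fun_prop)
  source' := by ext l; simp
  target' := by ext l; simp

theorem ofOm_homotopic {z : Z} {k k' : C(L, Path z z)} (h : k.Homotopic k') :
    (ofOm k).Homotopic (ofOm k') := by
  obtain ⟨H⟩ := h
  have hH := H.continuous
  refine ⟨⟨⟨⟨fun p => ⟨fun l => H (p.1, l) p.2, by fun_prop⟩,
    ContinuousMap.continuous_of_continuous_uncurry _ ?_⟩, fun t => ?_, fun t => ?_⟩, ?_⟩⟩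
  · show Continuous fun p : (I × I) × L => H (p.1.1, p.2) p.1.2
    fun_prop
  · ext l; show H (0, l) t = k l t; rw [H.apply_zero]
  · ext l; show H (1, l) t = k' l t; rw [H.apply_one]
  · rintro t x (rfl | rfl)
    · ext l; show H (t, l) 0 = k l 0; simp
    · ext l; show H (t, l) 1 = k l 1; simp

/-- Restriction of a path of maps along a map. -/
def resP {A B : C(M1, Z)} (P : Path A B) (j : C(L, M1)) {A' B' : C(L, Z)}
    (hA : ∀ l, A' l = A (j l)) (hB : ∀ l, B' l = B (j l)) : Path A' B' where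
  toFun t := (P t).comp j
  continuous_toFun := (ContinuousMap.continuous_precomp j).comp P.continuous
  source' := by ext l; simp [hA]
  target' := by ext l; simp [hB]

theorem trans_eval {A B C : C(M1, Z)} (P : Path A B) (P' : Path B C) {A' B' C' : C(L, Z)}
    (Q : Path A' B') (Q' : Path B' C') (y : M1) (l : L) (h : ∀ t, Q t l = P t y)
    (h' : ∀ t, Q' t l = P' t y) (t : I) : (Q.trans Q') t l = (P.trans P') t y := by
  rw [Path.trans_apply, Path.trans_apply]
  split_ifs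
  · exact h _
  · exact h' _

theorem MV [LocallyCompactSpace L] [LocallyCompactSpace M1] [LocallyCompactSpace M2]
    (m : MVData Y L M1 M2) (f : C(Y, Z)) (z : Z)
    (n1 : (f.comp m.i1).Homotopic (ContinuousMap.const M1 z))
    (n2 : (f.comp m.i2).Homotopic (ContinuousMap.const M2 z))
    {J : Type} (b : J → L)
    (hi : ∀ κ : J → Path z z, ∃ k : C(M2, Path z z), ∀ j, k (m.j2 (b j)) = κ j)
    (hii : ∀ g : C(L, Path z z), (∀ j, Joined (Path.refl z) (g (b j))) →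
      ∃ t : C(M1, Path z z), g.Homotopic (t.comp m.j1)) :
    f.Homotopic (ContinuousMap.const Y z) := by
  obtain ⟨H1⟩ := n1
  obtain ⟨H2⟩ := n2
  let P1 : Path (f.comp m.i1) (ContinuousMap.const M1 z) := ⟨H1.curry, H1.curry_zero, H1.curry_one⟩
  let P2 : Path (f.comp m.i2) (ContinuousMap.const M2 z) := ⟨H2.curry, H2.curry_zero, H2.curry_one⟩
  let F : C(L, Z) := f.comp (m.i1.comp m.j1)
  let Q1 : Path F (ContinuousMap.const L z) := resP P1 m.j1 (fun _ => rfl) (fun _ => rfl)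
  let Q2 : Path F (ContinuousMap.const L z) :=
    resP P2 m.j2 (fun l => congrArg f (m.hij l)) (fun _ => rfl)
  obtain ⟨k, hk⟩ := hi fun j => (toOm (Q1.symm.trans Q2) (b j)).symm
  let Q2' : Path F (ContinuousMap.const L z) := Q2.trans (ofOm (k.comp m.j2))
  obtain ⟨t, ht⟩ := hii (toOm ((Q1.symm.trans Q2).trans (ofOm (k.comp m.j2)))) (fun j => by
    apply joined_of_homotopic
    have : toOm ((Q1.symm.trans Q2).trans (ofOm (k.comp m.j2))) (b j) =
        (toOm (Q1.symm.trans Q2) (b j)).trans (toOm (Q1.symm.trans Q2) (b j)).symm := by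
      ext s
      rw [← hk j]
      show ((Q1.symm.trans Q2).trans (ofOm (k.comp m.j2))) s (b j) = _
      rw [Path.trans_apply, Path.trans_apply (toOm _ _)]
      split_ifs <;> rfl
    rw [this]
    exact (Path.Homotopic.trans_symm _).symm)
  have h3 := ofOm_homotopic ht
  have h4 : ofOm (toOm ((Q1.symm.trans Q2).trans (ofOm (k.comp m.j2)))) =
      (Q1.symm.trans Q2).trans (ofOm (k.comp m.j2)) := by
    ext s l; rfl
  rw [h4] at h3
  refine MV_base m f z (P1.trans (ofOm t)) (P2.trans (ofOm k))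
    (Q1.trans (ofOm (t.comp m.j1))) Q2' (fun s l => ?_) (fun s l => ?_) ?_
  · exact trans_eval P1 (ofOm t) Q1 (ofOm (t.comp m.j1)) _ _ (fun _ => rfl) (fun _ => rfl) s
  · exact trans_eval P2 (ofOm k) Q2 (ofOm (k.comp m.j2)) _ _ (fun _ => rfl) (fun _ => rfl) s
  · rw [← Path.Homotopic.Quotient.eq] at h3 ⊢
    simp only [Q2', Path.Homotopic.Quotient.mk_trans, Path.Homotopic.Quotient.mk_symm] at h3 ⊢
    rw [← h3, Path.Homotopic.Quotient.trans_assoc, q_cancel_left]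

end Pool.Agent.Lib.MP_4c90a8_lc
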