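import Mathlib
import Pool.Agent.Lib.MP_4c90a8_lc.Half
import Pool.Agent.Lib.MP_4c90a8_lc.MV

/-! Double mapping cylinders. -/

namespace Pool.Agent.Lib.MP_4c90a8_lc

set_option linter.unusedSectionVars false

open scoped unitInterval

variable {A B C : Type} [DecidableEq A] [DecidableEq B] [DecidableEq C]

/-- first target inclusion -/
def in1 (b : B) : A ⊕ B ⊕ C := Sum.inr (Sum.inl b)
/-- second target inclusion -/
def in2 (c : C) : A ⊕ B ⊕ C := Sum.inr (Sum.inr c)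

/-- The double mapping cylinder. -/
def dmc (rk : A → ℕ) (L : List (List A)) (K1 : List (List B)) (K2 : List (List C)) (φ1 : A → B)
    (φ2 : A → C) : List (List (A ⊕ B ⊕ C)) :=
  half rk L K1 Sum.inl in1 φ1 ++ half rk L K2 Sum.inl in2 φ2

/-- mass off the middle part -/
def mass (T : Finset (A ⊕ B ⊕ C)) (x : A ⊕ B ⊕ C → ℝ) : ℝ :=
  ∑ v ∈ T, if v.isLeft then 0 else x v

/-- signed mass -/
def tau (T : Finset (A ⊕ B ⊕ C)) (x : A ⊕ B ⊕ C → ℝ) : ℝ :=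
  ∑ v ∈ T, Sum.elim (fun _ => 0) (Sum.elim (fun _ => 1) fun _ => -1) v * x v

/-- the squeezing map -/
noncomputable def sq (T : Finset (A ⊕ B ⊕ C)) (x : A ⊕ B ⊕ C → ℝ) : A ⊕ B ⊕ C → ℝ := fun v =>
  if v.isLeft then x v / max (1 - mass T x) (1 / 2)
  else x v * (max 0 (2 * mass T x - 1) / max (mass T x) (1 / 2))

theorem sq_ne {T : Finset (A ⊕ B ⊕ C)} {x : A ⊕ B ⊕ C → ℝ} {v} (h : sq T x v ≠ 0) : x v ≠ 0 := by
  intro e; apply h; unfold sq; simp [e]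

theorem mass_nonneg {T : Finset (A ⊕ B ⊕ C)} {x : A ⊕ B ⊕ C → ℝ} (h : ∀ v, 0 ≤ x v) :
    0 ≤ mass T x := Finset.sum_nonneg fun v _ => by
  split_ifs
  · exact le_rfl
  · exact h v

theorem sq_mem {K : List (List (A ⊕ B ⊕ C))} {x : A ⊕ B ⊕ C → ℝ} (hx : x ∈ real K)
    {t : List (A ⊕ B ⊕ C)} (ht : x ∈ cell t) : sq (verts K) x ∈ cell t := by
  have p1 : 0 < max (1 - mass (verts K) x) (1 / 2) := lt_max_of_lt_right (by norm_num)
  have p2 : 0 < max (mass (verts K) x) (1 / 2) := lt_max_of_lt_right (by norm_num)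
  refine mem_cell (T := verts K) (fun v => ?_) (fun v hv => cell_supp ht (sq_ne hv))
    (fun v hv => real_supp hx (sq_ne hv)) ?_
  · unfold sq
    split_ifs
    · exact div_nonneg (ht.1 v) p1.le
    · exact mul_nonneg (ht.1 v) (div_nonneg (le_max_left _ _) p2.le)
  · have h1 := cell_sum ht (T := verts K) fun v hv => real_supp hx hv
    have h2 : ∑ v ∈ verts K, (if v.isLeft then x v else 0) = 1 - mass (verts K) x := by
      rw [← h1, mass, ← Finset.sum_sub_distrib]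
      exact Finset.sum_congr rfl fun v _ => by split_ifs <;> simp
    have h3 : ∑ v ∈ verts K, sq (verts K) x v =
        (∑ v ∈ verts K, (if v.isLeft then x v else 0)) / max (1 - mass (verts K) x) (1 / 2) +
        mass (verts K) x * (max 0 (2 * mass (verts K) x - 1) / max (mass (verts K) x) (1 / 2)) := by
      conv_rhs => arg 2; arg 1; unfold mass
      rw [Finset.sum_div, Finset.sum_mul, ← Finset.sum_add_distrib]
      exact Finset.sum_congr rfl fun v _ => by unfold sq; split_ifs <;> simp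
    rw [h3, h2]
    generalize mass (verts K) x = m at p1 p2 ⊢
    rcases le_total m (1 / 2) with h | h
    · rw [max_eq_left (by linarith : 1 / 2 ≤ 1 - m)] at p1 ⊢
      rw [max_eq_left (by linarith : 2 * m - 1 ≤ 0), div_self p1.ne']; simp
    · rw [max_eq_left h] at p2 ⊢
      rw [max_eq_right (by linarith : 1 - m ≤ 1 / 2), max_eq_right (by linarith : 0 ≤ 2 * m - 1)]
      field_simp; ring

theorem sq_left {T : Finset (A ⊕ B ⊕ C)} {x : A ⊕ B ⊕ C → ℝ} (hm : mass T x ≤ 1 / 2) {v}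
    (h : sq T x v ≠ 0) : ∃ a, v = Sum.inl a := by
  rcases v with a | b
  · exact ⟨a, rfl⟩
  · exfalso; apply h
    unfold sq
    rw [if_neg (by simp), max_eq_left (by linarith : 2 * mass T x - 1 ≤ 0)]; simp

theorem cont_mass (K : List (List (A ⊕ B ⊕ C))) (T : Finset (A ⊕ B ⊕ C)) :
    Continuous fun x : real K => mass T x.1 := by
  refine continuous_finsetSum _ fun v _ => ?_
  split_ifs
  · exact continuous_const
  · exact cont_coord v

theorem cont_sq (K : List (List (A ⊕ B ⊕ C))) (T : Finset (A ⊕ B ⊕ C)) (v : A ⊕ B ⊕ C) :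
    Continuous fun x : real K => sq T x.1 v := by
  have hm := cont_mass K T
  unfold sq
  split_ifs
  · exact (cont_coord v).div ((continuous_const.sub hm).max continuous_const)
      fun x => (lt_max_of_lt_right (by norm_num)).ne'
  · exact (cont_coord v).mul ((continuous_const.max ((continuous_const.mul hm).sub
      continuous_const)).div (hm.max continuous_const)
      fun x => (lt_max_of_lt_right (by norm_num)).ne')

variable {rk : A → ℕ} {L : List (List A)} {K1 : List (List B)} {K2 : List (List C)} {φ1 : A → B}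
  {φ2 : A → C}

theorem mass_eq1 {T : Finset (A ⊕ B ⊕ C)} {x : A ⊕ B ⊕ C → ℝ}
    (hx : x ∈ real (half rk L K1 Sum.inl in1 φ1)) : mass T x = tau T x := by
  obtain ⟨t, ht, hx⟩ := hx
  refine Finset.sum_congr rfl fun v _ => ?_
  by_cases hv : x v = 0
  · simp [hv]
  · have := cell_supp hx hv
    rcases mem_half.1 ht with ⟨s, hs, a, ha, rfl⟩ | ⟨s, hs, rfl⟩
    · rcases mem_facet.1 this with ⟨u, -, -, rfl⟩ | ⟨u, -, -, rfl⟩ <;> simp [in1]
    · obtain ⟨b, -, rfl⟩ := List.mem_map.1 this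
      simp [in1]

theorem mass_eq2 {T : Finset (A ⊕ B ⊕ C)} {x : A ⊕ B ⊕ C → ℝ}
    (hx : x ∈ real (half rk L K2 Sum.inl in2 φ2)) : mass T x = - tau T x := by
  obtain ⟨t, ht, hx⟩ := hx
  rw [tau, ← Finset.sum_neg_distrib]
  refine Finset.sum_congr rfl fun v _ => ?_
  by_cases hv : x v = 0
  · simp [hv]
  · have := cell_supp hx hv
    rcases mem_half.1 ht with ⟨s, hs, a, ha, rfl⟩ | ⟨s, hs, rfl⟩
    · rcases mem_facet.1 this with ⟨u, -, -, rfl⟩ | ⟨u, -, -, rfl⟩ <;> simp [in2]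
    · obtain ⟨b, -, rfl⟩ := List.mem_map.1 this
      simp [in2]

theorem real_append {V : Type} [DecidableEq V] {K K' : List (List V)} {x : V → ℝ} :
    x ∈ real (K ++ K') ↔ x ∈ real K ∨ x ∈ real K' := by
  simp only [real, Set.mem_ofPred_eq, List.mem_append, or_and_right, exists_or]

theorem sq_supp {x : A ⊕ B ⊕ C → ℝ} (hx : x ∈ real (dmc rk L K1 K2 φ1 φ2))
    (hm : mass (verts (dmc rk L K1 K2 φ1 φ2)) x ≤ 1 / 2) :
    ∃ s ∈ L, ∀ v, sq (verts (dmc rk L K1 K2 φ1 φ2)) x v ≠ 0 → ∃ a ∈ s, v = Sum.inl a := by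
  have hx' := hx
  obtain ⟨t, ht, hxt⟩ := hx
  obtain ⟨v0, hv0, h0⟩ := cell_exists (sq_mem hx' hxt)
  obtain ⟨a0, rfl⟩ := sq_left hm h0.ne'
  have : ∃ s ∈ L, ∀ a, Sum.inl a ∈ t → a ∈ s := by
    rcases List.mem_append.1 ht with ht | ht <;>
      rcases mem_half.1 ht with ⟨s, hs, a, ha, rfl⟩ | ⟨s, hs, rfl⟩
    · refine ⟨s, hs, fun b hb => ?_⟩
      rcases mem_facet.1 hb with ⟨u, hu, -, e⟩ | ⟨u, -, -, e⟩
      · rw [Sum.inl.inj e]; exact hu
      · simp [in1] at e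
    · simp [in1] at hv0
    · refine ⟨s, hs, fun b hb => ?_⟩
      rcases mem_facet.1 hb with ⟨u, hu, -, e⟩ | ⟨u, -, -, e⟩
      · rw [Sum.inl.inj e]; exact hu
      · simp [in2] at e
    · simp [in2] at hv0
  obtain ⟨s, hs, h⟩ := this
  refine ⟨s, hs, fun v hv => ?_⟩
  obtain ⟨a, rfl⟩ := sq_left hm hv
  exact ⟨a, h a (cell_supp hxt (sq_ne hv)), rfl⟩

theorem left_mem {t : List (A ⊕ B ⊕ C)} {s' : List A} {y : A ⊕ B ⊕ C → ℝ} (hy : y ∈ cell t)
    (h : ∀ v, y v ≠ 0 → ∃ a ∈ s', v = Sum.inl a) : (fun a => y (Sum.inl a)) ∈ cell s' := by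
  refine ⟨fun a => hy.1 _, fun a ha => ?_, ?_⟩
  · by_contra e
    obtain ⟨b, hb, e'⟩ := h _ e
    exact ha (Sum.inl.inj e' ▸ hb)
  · rw [← cell_sum hy (T := s'.toFinset.map ⟨Sum.inl, Sum.inl_injective⟩) fun v hv => ?_,
      Finset.sum_map]
    · rfl
    · obtain ⟨a, ha, rfl⟩ := h v hv
      simpa using ha

theorem mass_le {y : A ⊕ B ⊕ C → ℝ} (hy : y ∈ real (dmc rk L K1 K2 φ1 φ2)) {T}
    (h0 : 0 ≤ tau T y) (h1 : tau T y ≤ 1 / 2) : mass T y ≤ 1 / 2 := by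
  rcases real_append.1 hy with h | h
  · rw [mass_eq1 h]; exact h1
  · rw [mass_eq2 h]; linarith

theorem memD {y : A ⊕ B ⊕ C → ℝ} {K : List (List (A ⊕ B ⊕ C))} (hy : y ∈ real K) :
    sq (verts K) y ∈ real K := let ⟨t, ht, hx⟩ := hy; ⟨t, ht, sq_mem hy hx⟩

theorem memD1 {y : A ⊕ B ⊕ C → ℝ} (hy : y ∈ real (dmc rk L K1 K2 φ1 φ2))
    (c : 1 / 2 ≤ tau (verts (dmc rk L K1 K2 φ1 φ2)) y) :
    sq (verts (dmc rk L K1 K2 φ1 φ2)) y ∈ real (half rk L K1 (Sum.inl : A → A ⊕ B ⊕ C) in1 φ1) := by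
  rcases real_append.1 hy with h | h
  · obtain ⟨t, ht, hx⟩ := h
    exact ⟨t, ht, sq_mem hy hx⟩
  · exfalso
    have a := mass_eq2 (T := verts (dmc rk L K1 K2 φ1 φ2)) h
    obtain ⟨t, ht, hx⟩ := h
    have b := mass_nonneg (T := verts (dmc rk L K1 K2 φ1 φ2)) hx.1
    linarith

theorem memD2 (h2 : Simp φ2 L K2) {y : A ⊕ B ⊕ C → ℝ} (hy : y ∈ real (dmc rk L K1 K2 φ1 φ2))
    (c : tau (verts (dmc rk L K1 K2 φ1 φ2)) y ≤ 0) :
    sq (verts (dmc rk L K1 K2 φ1 φ2)) y ∈ real (half rk L K2 (Sum.inl : A → A ⊕ B ⊕ C) in2 φ2) := by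
  rcases real_append.1 hy with h | h
  · have a := mass_eq1 (T := verts (dmc rk L K1 K2 φ1 φ2)) h
    obtain ⟨s, hs, h'⟩ := sq_supp hy (by linarith)
    obtain ⟨t', ht', h''⟩ := simp_iota (rk := rk) (ι := (Sum.inl : A → A ⊕ B ⊕ C))
      (κ := in2) h2 s hs
    obtain ⟨t, ht, hx⟩ := h
    refine ⟨t', ht', cell_mono (sq_mem hy hx) fun v hv => ?_⟩
    obtain ⟨a, ha, rfl⟩ := h' v hv
    exact h'' a ha
  · obtain ⟨t, ht, hx⟩ := h
    exact ⟨t, ht, sq_mem hy hx⟩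

theorem memR {y : A ⊕ B ⊕ C → ℝ} (hy : y ∈ real (dmc rk L K1 K2 φ1 φ2))
    (c : 0 ≤ tau (verts (dmc rk L K1 K2 φ1 φ2)) y ∧ tau (verts (dmc rk L K1 K2 φ1 φ2)) y ≤ 1 / 2) :
    (fun a => sq (verts (dmc rk L K1 K2 φ1 φ2)) y (Sum.inl a)) ∈ real L := by
  obtain ⟨s, hs, h'⟩ := sq_supp hy (mass_le hy c.1 c.2)
  obtain ⟨t, ht, hx⟩ := id hy
  exact ⟨s, hs, left_mem (sq_mem hy hx) h'⟩

/-- the signed mass as a continuous map -/
def tauC (K : List (List (A ⊕ B ⊕ C))) : C(real K, ℝ) :=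
  ⟨fun x => tau (verts K) x.1, continuous_finsetSum _ fun v _ => continuous_const.mul (cont_coord v)⟩

/-- The Mayer-Vietoris data of the double mapping cylinder. -/
noncomputable def dmcMV (h1 : Simp φ1 L K1) (h2 : Simp φ2 L K2) :
    MVData (real (dmc rk L K1 K2 φ1 φ2)) (real L)
      (real (half rk L K1 (Sum.inl : A → A ⊕ B ⊕ C) in1 φ1))
      (real (half rk L K2 (Sum.inl : A → A ⊕ B ⊕ C) in2 φ2)) where
  τ := tauC _
  d := ⟨fun x => ⟨sq (verts (dmc rk L K1 K2 φ1 φ2)) x.1, memD x.2⟩,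
    Continuous.subtype_mk (continuous_pi fun v => cont_sq _ _ v) _⟩
  hd := lin_homotopic _ _ fun y => let ⟨t, ht, hx⟩ := y.2; ⟨t, ht, sq_mem y.2 hx, hx⟩
  i1 := ⟨fun x => ⟨x.1, real_append.2 (Or.inl x.2)⟩, continuous_subtype_val.subtype_mk _⟩
  i2 := ⟨fun x => ⟨x.1, real_append.2 (Or.inr x.2)⟩, continuous_subtype_val.subtype_mk _⟩
  j1 := smap (simp_iota h1)
  j2 := smap (simp_iota h2)
  inj1 := fun _ _ h => Subtype.ext (congrArg (fun y : real (dmc rk L K1 K2 φ1 φ2) => y.1) h)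
  inj2 := fun _ _ h => Subtype.ext (congrArg (fun y : real (dmc rk L K1 K2 φ1 φ2) => y.1) h)
  hij := fun _ => rfl
  D1 := ⟨fun y => ⟨sq (verts (dmc rk L K1 K2 φ1 φ2)) y.1.1, memD1 y.1.2 y.2⟩,
    Continuous.subtype_mk (continuous_pi fun v => (cont_sq _ _ v).comp continuous_subtype_val) _⟩
  D2 := ⟨fun y => ⟨sq (verts (dmc rk L K1 K2 φ1 φ2)) y.1.1, memD2 h2 y.1.2 y.2⟩,
    Continuous.subtype_mk (continuous_pi fun v => (cont_sq _ _ v).comp continuous_subtype_val) _⟩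
  r := ⟨fun y => ⟨fun a => sq (verts (dmc rk L K1 K2 φ1 φ2)) y.1.1 (Sum.inl a), memR y.1.2 y.2⟩,
    Continuous.subtype_mk (continuous_pi fun v =>
      (cont_sq _ _ (Sum.inl v)).comp continuous_subtype_val) _⟩
  hD1 := fun _ => rfl
  hD2 := fun _ => rfl
  hr := fun y => by
    obtain ⟨s, hs, h'⟩ := sq_supp y.1.2 (mass_le y.1.2 y.2.1 y.2.2)
    ext v
    show push (verts L) Sum.inl (fun a => sq (verts (dmc rk L K1 K2 φ1 φ2)) y.1.1 (Sum.inl a)) v =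
      sq (verts (dmc rk L K1 K2 φ1 φ2)) y.1.1 v
    rcases v with a | b
    · refine push_inj Sum.inl_injective (fun b hb => ?_) a
      obtain ⟨c, hc, e⟩ := h' _ hb
      exact mem_verts.2 ⟨s, hs, Sum.inl.inj e ▸ hc⟩
    · have e1 : sq (verts (dmc rk L K1 K2 φ1 φ2)) y.1.1 (Sum.inr b) = 0 := by
        by_contra e
        obtain ⟨c, -, e⟩ := h' _ e
        simp at e
      rw [e1]
      by_contra e
      obtain ⟨c, -, e⟩ := push_ne e
      simp at e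

theorem simp_in1 : Simp in1 K1 (dmc rk L K1 K2 φ1 φ2) := fun s hs =>
  let ⟨t, ht, h⟩ := simp_kappa (rk := rk) (L := L) (ι := Sum.inl) (κ := in1) (φ := φ1) s hs
  ⟨t, List.mem_append_left _ ht, h⟩

theorem simp_in2 : Simp in2 K2 (dmc rk L K1 K2 φ1 φ2) := fun s hs =>
  let ⟨t, ht, h⟩ := simp_kappa (rk := rk) (L := L) (ι := Sum.inl) (κ := in2) (φ := φ2) s hs
  ⟨t, List.mem_append_right _ ht, h⟩

theorem simp_inl (h1 : Simp φ1 L K1) : Simp Sum.inl L (dmc rk L K1 K2 φ1 φ2) := fun s hs =>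
  let ⟨t, ht, h⟩ := simp_iota (rk := rk) (ι := Sum.inl) (κ := in1) h1 s hs
  ⟨t, List.mem_append_left _ ht, h⟩

theorem DMC_MV {Z : Type} [TopologicalSpace Z] [Inhabited B] [Inhabited C]
    (h1 : Simp φ1 L K1) (h2 : Simp φ2 L K2) (f : C(real (dmc rk L K1 K2 φ1 φ2), Z)) (z : Z)
    (n1 : (f.comp (smap simp_in1)).Homotopic (ContinuousMap.const _ z))
    (n2 : (f.comp (smap simp_in2)).Homotopic (ContinuousMap.const _ z))
    {J : Type} (b : J → A) (hb : ∀ j, Adj L (b j) (b j))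
    (hi : ∀ κ : J → Path z z, ∃ k : C(real K2, Path z z), ∀ j, k (vtx ((hb j).map h2)) = κ j)
    (hii : ∀ g : C(real L, Path z z), (∀ j, Joined (Path.refl z) (g (vtx (hb j)))) →
      ∃ t : C(real K1, Path z z), g.Homotopic (t.comp (smap h1))) :
    f.Homotopic (ContinuousMap.const _ z) := by
  let ρ1 : A ⊕ B ⊕ C → B := Sum.elim φ1 (Sum.elim id fun _ => default)
  let ρ2 : A ⊕ B ⊕ C → C := Sum.elim φ2 (Sum.elim (fun _ => default) id)
  have s1 := simp_rho (rk := rk) (ι := Sum.inl) (κ := in1) (ρ := ρ1) h1 (fun _ => rfl) fun _ => rfl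
  have s2 := simp_rho (rk := rk) (ι := Sum.inl) (κ := in2) (ρ := ρ2) h2 (fun _ => rfl) fun _ => rfl
  have r1 := half_retract (rk := rk) (κ := in1) (ρ := ρ1) h1 Sum.inl_injective (fun _ => rfl)
    fun _ => rfl
  have r2 := half_retract (rk := rk) (κ := in2) (ρ := ρ2) h2 Sum.inl_injective (fun _ => rfl)
    fun _ => rfl
  refine MV (dmcMV h1 h2) f z ?_ ?_ (fun j => vtx (hb j)) (fun κ => ?_) (fun g hg => ?_)
  · exact ((ContinuousMap.Homotopic.refl (f.comp (dmcMV h1 h2).i1)).comp r1).symm.trans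
      (n1.comp (ContinuousMap.Homotopic.refl (smap s1)))
  · exact ((ContinuousMap.Homotopic.refl (f.comp (dmcMV h1 h2).i2)).comp r2).symm.trans
      (n2.comp (ContinuousMap.Homotopic.refl (smap s2)))
  · obtain ⟨k, hk⟩ := hi κ
    refine ⟨k.comp (smap s2), fun j => ?_⟩
    show k (smap s2 (smap (simp_iota h2) (vtx (hb j)))) = κ j
    rw [smap_vtx, smap_vtx]
    exact hk j
  · obtain ⟨t, ht⟩ := hii g hg
    refine ⟨t.comp (smap s1), ht.trans ((ContinuousMap.Homotopic.refl t).comp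
      (lin_homotopic (smap h1) ((smap s1).comp (smap (simp_iota h1))) fun y => ?_))⟩
    obtain ⟨s, hs, hy⟩ := y.2
    obtain ⟨t', ht', h⟩ := h1 s hs
    refine ⟨t', ht', smap_mem _ _ fun v hv => h v (cell_supp hy hv), smap_mem s1 _ fun w hw => ?_⟩
    obtain ⟨v, hv, rfl⟩ := smap_ne _ _ hw
    exact h v (cell_supp hy hv)

theorem dmc_cohom {G : Type} [Group G] {ω : A ⊕ B ⊕ C → A ⊕ B ⊕ C → G}
    (hω : Cocy (dmc rk L K1 K2 φ1 φ2) ω) :
    Cohom L (fun u v => ω (in1 (φ1 u)) (in1 (φ1 v))) (fun u v => ω (in2 (φ2 u)) (in2 (φ2 v))) := by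
  obtain ⟨a, ha⟩ := half_cohom (rk := rk) (L := L) (K := K1) (ι := Sum.inl) (κ := in1) (φ := φ1)
    (ω := ω) fun s hs => hω s (List.mem_append_left _ hs)
  obtain ⟨b, hb⟩ := half_cohom (rk := rk) (L := L) (K := K2) (ι := Sum.inl) (κ := in2) (φ := φ2)
    (ω := ω) fun s hs => hω s (List.mem_append_right _ hs)
  refine ⟨fun u => (a u)⁻¹ * b u, fun u v h => ?_⟩
  have e := (ha u v h).symm.trans (hb u v h)
  simp only at e ⊢
  rw [← mul_left_cancel_iff (a := a u), ← mul_right_cancel_iff (a := (a v)⁻¹), e]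
  group

theorem dmc_glue {G : Type} [Group G] [Inhabited B] [Inhabited C]
    (h1 : Simp φ1 L K1) (h2 : Simp φ2 L K2) {ω1 : B → B → G} {ω2 : C → C → G}
    (c1 : Cocy K1 ω1) (c2 : Cocy K2 ω2)
    (hc : Cohom L (fun u v => ω1 (φ1 u) (φ1 v)) (fun u v => ω2 (φ2 u) (φ2 v))) :
    ∃ ω, Cocy (dmc rk L K1 K2 φ1 φ2) ω ∧ ∀ u v, ω (in1 u) (in1 v) = ω1 u v := by
  obtain ⟨μ, hμ⟩ := hc
  let ρ1 : A ⊕ B ⊕ C → B := Sum.elim φ1 (Sum.elim id fun _ => default)
  let ρ2 : A ⊕ B ⊕ C → C := Sum.elim φ2 (Sum.elim (fun _ => default) id)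
  let ν : A ⊕ B ⊕ C → G := Sum.elim μ fun _ => 1
  let is2 : A ⊕ B ⊕ C → Bool := Sum.elim (fun _ => false) Sum.isRight
  have s1 := simp_rho (rk := rk) (ι := Sum.inl) (κ := in1) (ρ := ρ1) h1 (fun _ => rfl) fun _ => rfl
  have s2 := simp_rho (rk := rk) (ι := Sum.inl) (κ := in2) (ρ := ρ2) h2 (fun _ => rfl) fun _ => rfl
  refine ⟨fun x y => if is2 x || is2 y then ν x * ω2 (ρ2 x) (ρ2 y) * (ν y)⁻¹
    else ω1 (ρ1 x) (ρ1 y), fun t ht => ?_, fun u v => rfl⟩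
  rcases List.mem_append.1 ht with ht | ht
  · have : ∀ x ∈ t, is2 x = false := fun x hx => by
      rcases mem_half.1 ht with ⟨s, hs, a, ha, rfl⟩ | ⟨s, hs, rfl⟩
      · rcases mem_facet.1 hx with ⟨u, -, -, rfl⟩ | ⟨u, -, -, rfl⟩ <;> rfl
      · obtain ⟨b, -, rfl⟩ := List.mem_map.1 hx
        rfl
    intro x hx y hy w hw
    simp only [this x hx, this y hy, this w hw, Bool.or_false, Bool.false_eq_true, if_false]
    exact c1.comap s1 t ht x hx y hy w hw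
  · have : ∀ x ∈ t, ∀ y ∈ t, (if is2 x || is2 y then ν x * ω2 (ρ2 x) (ρ2 y) * (ν y)⁻¹
        else ω1 (ρ1 x) (ρ1 y)) = ν x * ω2 (ρ2 x) (ρ2 y) * (ν y)⁻¹ := fun x hx y hy => by
      split_ifs with c
      · rfl
      · rcases mem_half.1 ht with ⟨s, hs, a, ha, rfl⟩ | ⟨s, hs, rfl⟩
        · rcases mem_facet.1 hx with ⟨u, hu, -, rfl⟩ | ⟨u, -, -, rfl⟩
          · rcases mem_facet.1 hy with ⟨v, hv, -, rfl⟩ | ⟨v, -, -, rfl⟩
            · exact hμ u v ⟨s, hs, hu, hv⟩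
            · simp [is2, in2] at c
          · simp [is2, in2] at c
        · obtain ⟨b, -, rfl⟩ := List.mem_map.1 hx
          simp [is2, in2] at c
    intro x hx y hy w hw
    simp only [this x hx y hy, this y hy w hw, this x hx w hw]
    have e : ω2 (ρ2 x) (ρ2 y) * ω2 (ρ2 y) (ρ2 w) = ω2 (ρ2 x) (ρ2 w) :=
      c2.comap s2 t ht x hx y hy w hw
    rw [← e]
    group

theorem dmc_dim {n : ℕ} (hL : Dim n L) (hK1 : Dim (n + 1) K1) (hK2 : Dim (n + 1) K2)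
    (hrk : ∀ s ∈ L, ∀ u ∈ s, ∀ v ∈ s, rk u = rk v → u = v) :
    Dim (n + 1) (dmc rk L K1 K2 φ1 φ2) := fun t ht => by
  rcases List.mem_append.1 ht with ht | ht
  · exact half_dim hL hK1 hrk t ht
  · exact half_dim hL hK2 hrk t ht

end Pool.Agent.Lib.MP_4c90a8_lc
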