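import Mathlib
import Pool.Agent.Lib.MP_4c90a8_lc.DMC
import Pool.Agent.Shared.GroupUndec.Rabin

/-! The graphs and cycles of the presentation complexes. -/

namespace Pool.Agent.Lib.MP_4c90a8_lc

set_option linter.unusedSectionVars false

open Pool.Agent.Shared.GroupUndec

section general

variable {V W : Type} [DecidableEq V] [DecidableEq W] {G : Type} [Group G]

theorem adj_edge {K : List (List V)} {u v : V} (h : [u, v] ∈ K) : Adj K u v :=
  ⟨_, h, by simp, by simp⟩

theorem simp_of_edges {K : List (List V)} {K' : List (List W)} (hK : Graph K) {φ : V → W}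
    (h : ∀ u v, [u, v] ∈ K → Adj K' (φ u) (φ v)) : Simp φ K K' := fun s hs => by
  obtain ⟨u, v, rfl⟩ := hK s hs
  obtain ⟨t, ht, a, b⟩ := h u v hs
  exact ⟨t, ht, by simp [a, b]⟩

theorem cocy_of_graph {K : List (List V)} (hK : Graph K) {ω : V → V → G} (h1 : ∀ u, ω u u = 1)
    (h2 : ∀ u v, ω v u = (ω u v)⁻¹) : Cocy K ω := fun s hs => by
  obtain ⟨u, v, rfl⟩ := hK s hs
  simp [h1, h2 u v]

theorem eq_of_edges {K : List (List V)} (hK : Graph K) {ω ω' : V → V → G} (c : Cocy K ω)
    (c' : Cocy K ω') (h : V → G) (he : ∀ u v, [u, v] ∈ K → ω u v = h u * ω' u v * (h v)⁻¹) :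
    ∀ u v, Adj K u v → ω u v = h u * ω' u v * (h v)⁻¹ := by
  intro u v a
  obtain ⟨s, hs, hu, hv⟩ := id a
  obtain ⟨x, y, rfl⟩ := hK s hs
  simp only [List.mem_cons, List.not_mem_nil, or_false] at hu hv
  rcases hu with rfl | rfl <;> rcases hv with rfl | rfl
  · simp [c.self a, c'.self a]
  · exact he _ _ hs
  · rw [c.symm a.symm, c'.symm a.symm, he _ _ hs]; group
  · simp [c.self a, c'.self a]

theorem cocy_one (K : List (List V)) : Cocy K fun _ _ => (1 : G) := fun _ _ _ _ _ _ _ _ => by simp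

theorem cobd_of_edges {K : List (List V)} (hK : Graph K) {ω : V → V → G} (c : Cocy K ω)
    (h : V → G) (he : ∀ u v, [u, v] ∈ K → h u * ω u v = h v) : Cobd K ω :=
  ⟨h, fun u v a => by
    simpa using eq_of_edges hK c (cocy_one K) (fun v => (h v)⁻¹)
      (fun u v e => by rw [← he u v e]; simp) u v a⟩

/-- Product of a cochain along an edge path. -/
def pp (ω : V → V → G) (γ : ℕ → V) : ℕ → G
  | 0 => 1
  | n + 1 => pp ω γ n * ω (γ n) (γ (n + 1))

theorem pp_succ' (ω : V → V → G) (γ : ℕ → V) (n : ℕ) :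
    pp ω γ (n + 1) = ω (γ 0) (γ 1) * pp ω (fun p => γ (p + 1)) n := by
  induction n with
  | zero => simp [pp]
  | succ n ih => rw [pp, ih, pp, mul_assoc]

theorem pp_conj {ω : V → V → G} {ω' : W → W → G} {γ : ℕ → V} {γ' : ℕ → W} (h : ℕ → G) (n : ℕ)
    (e : ∀ p < n, ω (γ p) (γ (p + 1)) = h p * ω' (γ' p) (γ' (p + 1)) * (h (p + 1))⁻¹) :
    pp ω γ n = h 0 * pp ω' γ' n * (h n)⁻¹ := by
  induction n with
  | zero => simp [pp]
  | succ n ih => rw [pp, pp, ih fun p hp => e p (by omega), e n (by omega)]; group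

theorem pp_congr {ω : V → V → G} {ω' : W → W → G} {γ : ℕ → V} {γ' : ℕ → W} (n : ℕ)
    (e : ∀ p < n, ω (γ p) (γ (p + 1)) = ω' (γ' p) (γ' (p + 1))) : pp ω γ n = pp ω' γ' n := by
  simpa using pp_conj (ω := ω) (ω' := ω') (γ := γ) (γ' := γ') (fun _ => 1) n (by simpa using e)

theorem pp_one {ω : V → V → G} {γ : ℕ → V} (n : ℕ) (e : ∀ p < n, ω (γ p) (γ (p + 1)) = 1) :
    pp ω γ n = 1 := by
  induction n with
  | zero => rfl
  | succ n ih => rw [pp, ih fun p hp => e p (by omega), e n (by omega), one_mul]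

/-- The edges of an edge path. -/
def pathCx (γ : ℕ → V) (n : ℕ) : List (List V) := (List.range n).map fun p => [γ p, γ (p + 1)]

theorem mem_pathCx {γ : ℕ → V} {n : ℕ} {s : List V} :
    s ∈ pathCx γ n ↔ ∃ p < n, s = [γ p, γ (p + 1)] := by
  simp [pathCx, eq_comm]

/-- Connected by an edge path. -/
abbrev Conn (K : List (List V)) : V → V → Prop := Relation.ReflTransGen (Adj K)

theorem path_conn {K : List (List V)} {γ : ℕ → V} {n : ℕ}
    (h : ∀ p < n, Adj K (γ p) (γ (p + 1))) : Conn K (γ 0) (γ n) := by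
  induction n with
  | zero => exact .refl
  | succ n ih => exact (ih fun p hp => h p (by omega)).tail (h n (by omega))

theorem Conn.map {K : List (List V)} {K' : List (List W)} {φ : V → W} (h : Simp φ K K') {u v : V}
    (c : Conn K u v) : Conn K' (φ u) (φ v) := by
  induction c with
  | refl => exact .refl
  | tail _ a ih => exact ih.tail (Adj.map h a)

theorem joined_of_conn {Z : Type} [TopologicalSpace Z] {K : List (List V)} (z : Z)
    (f : C(real K, Z)) {u v : V} (c : Conn K u v) (hu : Adj K u u)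
    (j : Joined z (f (vtx hu))) (hv : Adj K v v) : Joined z (f (vtx hv)) := by
  induction c with
  | refl => exact j
  | tail _ a ih => exact (ih a.left).trans ⟨(edgeP a).map f.continuous⟩

theorem graph_dim {K : List (List V)} (hK : Graph K) : Dim 2 K := fun s hs => by
  obtain ⟨u, v, rfl⟩ := hK s hs
  exact List.toFinset_card_le _

theorem Dim.mono {K : List (List V)} {m n : ℕ} (h : Dim m K) (e : m ≤ n) : Dim n K :=
  fun s hs => (h s hs).trans e

end general

theorem simp_dmc {A B C A' B' C' : Type} [DecidableEq A] [DecidableEq B] [DecidableEq C]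
    [DecidableEq A'] [DecidableEq B'] [DecidableEq C']
    {rk : A → ℕ} {L : List (List A)} {K1 : List (List B)} {K2 : List (List C)} {φ1 : A → B}
    {φ2 : A → C} {rk' : A' → ℕ} {L' : List (List A')} {K1' : List (List B')}
    {K2' : List (List C')} {φ1' : A' → B'} {φ2' : A' → C'} {fA : A → A'} {fB : B → B'}
    {fC : C → C'} (hA : Simp fA L L') (hB : Simp fB K1 K1') (hC : Simp fC K2 K2')
    (hr : ∀ u, rk' (fA u) = rk u) (h1 : ∀ u, φ1' (fA u) = fB (φ1 u))
    (h2 : ∀ u, φ2' (fA u) = fC (φ2 u)) :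
    Simp (Sum.map fA (Sum.map fB fC)) (dmc rk L K1 K2 φ1 φ2) (dmc rk' L' K1' K2' φ1' φ2') := by
  intro t ht
  rcases List.mem_append.1 ht with ht | ht <;>
    rcases mem_half.1 ht with ⟨s, hs, a, ha, rfl⟩ | ⟨s, hs, rfl⟩
  · obtain ⟨s', hs', h⟩ := hA s hs
    refine ⟨_, List.mem_append_left _ (facet_mem hs' (h a ha)), fun v hv => ?_⟩
    rcases mem_facet.1 hv with ⟨u, hu, e, rfl⟩ | ⟨u, hu, e, rfl⟩
    · exact mem_facet.2 (Or.inl ⟨fA u, h u hu, by rwa [hr, hr], rfl⟩)
    · exact mem_facet.2 (Or.inr ⟨fA u, h u hu, by rwa [hr, hr], by rw [h1]; rfl⟩)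
  · obtain ⟨s', hs', h⟩ := hB s hs
    refine ⟨_, List.mem_append_left _ (mem_half.2 (Or.inr ⟨s', hs', rfl⟩)), fun v hv => ?_⟩
    obtain ⟨b, hb, rfl⟩ := List.mem_map.1 hv
    exact List.mem_map.2 ⟨_, h b hb, rfl⟩
  · obtain ⟨s', hs', h⟩ := hA s hs
    refine ⟨_, List.mem_append_right _ (facet_mem hs' (h a ha)), fun v hv => ?_⟩
    rcases mem_facet.1 hv with ⟨u, hu, e, rfl⟩ | ⟨u, hu, e, rfl⟩
    · exact mem_facet.2 (Or.inl ⟨fA u, h u hu, by rwa [hr, hr], rfl⟩)
    · exact mem_facet.2 (Or.inr ⟨fA u, h u hu, by rwa [hr, hr], by rw [h2]; rfl⟩)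
  · obtain ⟨s', hs', h⟩ := hC s hs
    refine ⟨_, List.mem_append_right _ (mem_half.2 (Or.inr ⟨s', hs', rfl⟩)), fun v hv => ?_⟩
    obtain ⟨b, hb, rfl⟩ := List.mem_map.1 hv
    exact List.mem_map.2 ⟨_, h b hb, rfl⟩

theorem adj_cyl1 {A B C : Type} [DecidableEq A] [DecidableEq B] [DecidableEq C]
    {rk : A → ℕ} {L : List (List A)} {K1 : List (List B)} {K2 : List (List C)} {φ1 : A → B}
    {φ2 : A → C} {a : A} (h : Adj L a a) :
    Adj (dmc rk L K1 K2 φ1 φ2) (Sum.inl a) (in1 (φ1 a)) :=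
  let ⟨_, hs, ha, _⟩ := h
  ⟨_, List.mem_append_left _ (facet_mem hs ha), mem_facet.2 (Or.inl ⟨a, ha, le_rfl, rfl⟩),
    mem_facet.2 (Or.inr ⟨a, ha, le_rfl, rfl⟩)⟩

theorem adj_cyl2 {A B C : Type} [DecidableEq A] [DecidableEq B] [DecidableEq C]
    {rk : A → ℕ} {L : List (List A)} {K1 : List (List B)} {K2 : List (List C)} {φ1 : A → B}
    {φ2 : A → C} {a : A} (h : Adj L a a) :
    Adj (dmc rk L K1 K2 φ1 φ2) (Sum.inl a) (in2 (φ2 a)) :=
  let ⟨_, hs, ha, _⟩ := h
  ⟨_, List.mem_append_right _ (facet_mem hs ha), mem_facet.2 (Or.inl ⟨a, ha, le_rfl, rfl⟩),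
    mem_facet.2 (Or.inr ⟨a, ha, le_rfl, rfl⟩)⟩

/-! ### The concrete graphs -/

/-- vertices of a wedge of triangles -/
abbrev WV := Option (ℕ × Bool)
/-- vertices of the graph -/
abbrev GV := (ℕ × WV) ⊕ (ℕ × ℕ)
/-- vertices of the cycles -/
abbrev CV := ℕ × ℕ × ℕ
/-- cone points -/
abbrev PV := ℕ × ℕ
/-- vertices of the two-complex -/
abbrev LV := CV ⊕ GV ⊕ PV

instance decWV : DecidableEq WV := inferInstance
instance decGV : DecidableEq GV := inferInstance
instance decCV : DecidableEq CV := inferInstance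
instance decPV : DecidableEq PV := inferInstance
instance decLV : DecidableEq LV := inferInstance

/-- The vertex at position `p` of the edge path spelling a word. -/
def pos (w : Word) (p : ℕ) : WV :=
  if p % 3 = 0 then none else (w[p / 3]?).map fun c => (c.1, if p % 3 = 1 then !c.2 else c.2)

theorem pos_nil (p : ℕ) : pos [] p = none := by simp [pos]

theorem pos_cons (c : ℕ × Bool) (w : Word) (p : ℕ) : pos (c :: w) (p + 1 + 1 + 1) = pos w p := by
  have h1 : (p + 1 + 1 + 1) % 3 = p % 3 := by omega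
  have h2 : (p + 1 + 1 + 1) / 3 = p / 3 + 1 := by omega
  simp only [pos, h1, h2, List.getElem?_cons_succ]

theorem pos_zero (w : Word) : pos w 0 = none := rfl

theorem pos_big (w : Word) {p : ℕ} (h : 3 * w.length ≤ p) : pos w p = none := by
  unfold pos
  split_ifs
  · rfl
  all_goals rw [List.getElem?_eq_none (by omega)]; rfl

/-- copy `j` of the wedge of triangles -/
def wedge (N j : ℕ) : List (List GV) :=
  [Sum.inl (j, none), Sum.inl (j, none)] :: (List.range N).flatMap fun x =>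
    [[Sum.inl (j, none), Sum.inl (j, some (x, false))],
     [Sum.inl (j, some (x, false)), Sum.inl (j, some (x, true))],
     [Sum.inl (j, some (x, true)), Sum.inl (j, none)]]

/-- the arc from copy `0` to copy `j + 1` -/
def arc (n j p : ℕ) : GV :=
  if p = 0 then Sum.inl (0, none) else if p ≤ n then Sum.inr (j, p) else Sum.inl (j + 1, none)

/-- the graph -/
def lam (N : ℕ) (R : List Word) : List (List GV) :=
  (List.range (R.length + 1)).flatMap (wedge N) ++ (List.range R.length).flatMap fun j =>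
    pathCx (arc (3 * (R.getD j []).length) j) (3 * (R.getD j []).length + 1)

theorem mem_lam {N : ℕ} {R : List Word} {s : List GV} : s ∈ lam N R ↔
    (∃ j ≤ R.length, s = [Sum.inl (j, none), Sum.inl (j, none)] ∨ ∃ x < N,
      s = [Sum.inl (j, none), Sum.inl (j, some (x, false))] ∨
      s = [Sum.inl (j, some (x, false)), Sum.inl (j, some (x, true))] ∨
      s = [Sum.inl (j, some (x, true)), Sum.inl (j, none)]) ∨
    ∃ j < R.length, ∃ p < 3 * (R.getD j []).length + 1,
      s = [arc (3 * (R.getD j []).length) j p, arc (3 * (R.getD j []).length) j (p + 1)] := by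
  simp only [lam, wedge, List.mem_append, List.mem_flatMap, List.mem_range, mem_pathCx,
    List.mem_cons, List.not_mem_nil, or_false, Nat.lt_succ_iff]

theorem graph_lam (N : ℕ) (R : List Word) : Graph (lam N R) := fun s hs => by
  rcases mem_lam.1 hs with ⟨j, -, rfl | ⟨x, -, rfl | rfl | rfl⟩⟩ | ⟨j, -, p, -, rfl⟩ <;>
    exact ⟨_, _, rfl⟩

section adj
variable {N : ℕ} {R : List Word} {j x : ℕ}

theorem adj_b (hj : j ≤ R.length) : Adj (lam N R) (Sum.inl (j, none)) (Sum.inl (j, none)) :=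
  adj_edge (mem_lam.2 (Or.inl ⟨j, hj, Or.inl rfl⟩))
theorem adj_1 (hj : j ≤ R.length) (hx : x < N) :
    Adj (lam N R) (Sum.inl (j, none)) (Sum.inl (j, some (x, false))) :=
  adj_edge (mem_lam.2 (Or.inl ⟨j, hj, Or.inr ⟨x, hx, Or.inl rfl⟩⟩))
theorem adj_2 (hj : j ≤ R.length) (hx : x < N) :
    Adj (lam N R) (Sum.inl (j, some (x, false))) (Sum.inl (j, some (x, true))) :=
  adj_edge (mem_lam.2 (Or.inl ⟨j, hj, Or.inr ⟨x, hx, Or.inr (Or.inl rfl)⟩⟩))
theorem adj_3 (hj : j ≤ R.length) (hx : x < N) :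
    Adj (lam N R) (Sum.inl (j, some (x, true))) (Sum.inl (j, none)) :=
  adj_edge (mem_lam.2 (Or.inl ⟨j, hj, Or.inr ⟨x, hx, Or.inr (Or.inr rfl)⟩⟩))
theorem adj_arc (hj : j < R.length) {p : ℕ} (hp : p < 3 * (R.getD j []).length + 1) :
    Adj (lam N R) (arc (3 * (R.getD j []).length) j p) (arc (3 * (R.getD j []).length) j (p + 1)) :=
  adj_edge (mem_lam.2 (Or.inr ⟨j, hj, p, hp, rfl⟩))

theorem adj_pos (hj : j ≤ R.length) {w : Word} (hw : ∀ c ∈ w, c.1 < N) (p : ℕ) :
    Adj (lam N R) (Sum.inl (j, pos w p)) (Sum.inl (j, pos w (p + 1))) := by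
  induction w generalizing p with
  | nil => simpa [pos_nil] using adj_b hj
  | cons c w ih =>
    obtain ⟨x, b⟩ := c
    have hx : x < N := hw _ List.mem_cons_self
    rcases p with _ | _ | _ | p
    · cases b
      · exact (adj_3 hj hx).symm
      · exact adj_1 hj hx
    · cases b
      · exact (adj_2 hj hx).symm
      · exact adj_2 hj hx
    · cases b
      · exact (adj_1 hj hx).symm
      · exact adj_3 hj hx
    · rw [pos_cons, pos_cons]
      exact ih (fun c hc => hw c (List.mem_cons_of_mem _ hc)) p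

theorem arc_end (n j : ℕ) : arc n j (n + 1) = Sum.inl (j + 1, none) := by simp [arc]

theorem conn_lam {v : GV} (h : Adj (lam N R) v v) : Conn (lam N R) (Sum.inl (0, none)) v := by
  have hb : ∀ j ≤ R.length, Conn (lam N R) (Sum.inl (0, none)) (Sum.inl (j, none)) := by
    rintro (_ | j) hj
    · exact .refl
    · have := path_conn (K := lam N R) (γ := arc (3 * (R.getD j []).length) j)
        fun p hp => adj_arc (N := N) (j := j) hj hp
      rwa [arc_end] at this
  obtain ⟨s, hs, hv, -⟩ := h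
  rcases mem_lam.1 hs with ⟨j, hj, rfl | ⟨x, hx, rfl | rfl | rfl⟩⟩ | ⟨j, hj, p, hp, rfl⟩ <;>
    simp only [List.mem_cons, List.not_mem_nil, or_false, or_self] at hv
  · subst hv; exact hb j hj
  · rcases hv with rfl | rfl
    · exact hb j hj
    · exact (hb j hj).tail (adj_1 hj hx)
  · rcases hv with rfl | rfl
    · exact (hb j hj).tail (adj_1 hj hx)
    · exact (hb j hj).tail (adj_3 hj hx).symm
  · rcases hv with rfl | rfl
    · exact (hb j hj).tail (adj_3 hj hx).symm
    · exact hb j hj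
  · rcases hv with rfl | rfl
    · exact path_conn (K := lam N R) (γ := arc (3 * (R.getD j []).length) j) (n := p)
        fun q hq => adj_arc (N := N) hj (by omega)
    · exact path_conn (K := lam N R) (γ := arc (3 * (R.getD j []).length) j) (n := p + 1)
        fun q hq => adj_arc (N := N) hj (by omega)

end adj

variable {G : Type} [Group G]

/-- The values of the generators under a cocycle. -/
def gen (ω : GV → GV → G) (j x : ℕ) : G :=
  ω (Sum.inl (j, none)) (Sum.inl (j, some (x, false))) *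
    ω (Sum.inl (j, some (x, false))) (Sum.inl (j, some (x, true))) *
    ω (Sum.inl (j, some (x, true))) (Sum.inl (j, none))

theorem pp_word {N : ℕ} {R : List Word} {ω : GV → GV → G} (hω : Cocy (lam N R) ω) {j : ℕ}
    (hj : j ≤ R.length) {w : Word} (hw : ∀ c ∈ w, c.1 < N) :
    pp ω (fun p => Sum.inl (j, pos w p)) (3 * w.length + 1) = ev (gen ω j) w := by
  induction w with
  | nil => simp [pp, pos_nil, hω.self (adj_b hj)]
  | cons c w ih =>
    obtain ⟨x, b⟩ := c
    have hx : x < N := hw _ List.mem_cons_self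
    have : 3 * ((x, b) :: w).length + 1 = 3 * w.length + 1 + 1 + 1 + 1 := by simp; omega
    rw [this, pp_succ', pp_succ', pp_succ']
    simp only [pos_cons]
    rw [ih fun c hc => hw c (List.mem_cons_of_mem _ hc)]
    cases b
    · rw [ev_cons_false, gen, hω.symm (adj_1 hj hx).symm, hω.symm (adj_2 hj hx).symm,
        hω.symm (adj_3 hj hx).symm]
      show ω (Sum.inl (j, none)) (Sum.inl (j, some (x, true))) *
        (ω (Sum.inl (j, some (x, true))) (Sum.inl (j, some (x, false))) *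
          (ω (Sum.inl (j, some (x, false))) (Sum.inl (j, none)) * _)) = _
      group
    · rw [ev_cons_true, gen, mul_assoc, mul_assoc]
      rfl

theorem cobd_lam {N : ℕ} {R : List Word} {ω : GV → GV → G} (hω : Cocy (lam N R) ω)
    (hg : ∀ j ≤ R.length, ∀ x < N, gen ω j x = 1) : Cobd (lam N R) ω := by
  let H : ℕ → G := fun j => if j = 0 then 1 else
    pp ω (arc (3 * (R.getD (j - 1) []).length) (j - 1)) (3 * (R.getD (j - 1) []).length + 1)
  let h : GV → G := Sum.elim (fun c => H c.1 * ω (Sum.inl (c.1, none)) (Sum.inl c))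
    fun c => pp ω (arc (3 * (R.getD c.1 []).length) c.1) c.2
  have hb : ∀ j ≤ R.length, h (Sum.inl (j, none)) = H j := fun j hj => by
    simp [h, hω.self (adj_b hj)]
  have ha : ∀ j < R.length, ∀ p ≤ 3 * (R.getD j []).length + 1,
      h (arc (3 * (R.getD j []).length) j p) = pp ω (arc (3 * (R.getD j []).length) j) p := by
    intro j hj p hp
    by_cases h0 : p = 0
    · subst h0
      exact hb 0 (Nat.zero_le _)
    · by_cases h1 : p ≤ 3 * (R.getD j []).length
      · have : arc (3 * (R.getD j []).length) j p = Sum.inr (j, p) := by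
          unfold arc; rw [if_neg h0, if_pos h1]
        rw [this]; rfl
      · obtain rfl : p = 3 * (R.getD j []).length + 1 := by omega
        rw [arc_end, hb _ hj]
        simp [H]
  refine cobd_of_edges (graph_lam N R) hω h fun u v e => ?_
  rcases mem_lam.1 e with ⟨j, hj, e | ⟨x, hx, e | e | e⟩⟩ | ⟨j, hj, p, hp, e⟩ <;>
    simp only [List.cons.injEq, and_true] at e <;> obtain ⟨rfl, rfl⟩ := e
  · rw [hω.self (adj_b hj), mul_one]
  · rw [hb j hj]; rfl
  · have := hg j hj x hx
    rw [gen, hω.symm (adj_3 hj hx).symm, mul_inv_eq_one] at this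
    simp only [h, Sum.elim_inl]
    rw [mul_assoc, this]
  · rw [hb j hj]
    simp only [h, Sum.elim_inl]
    rw [hω.symm (adj_3 hj hx).symm]; group
  · rw [ha j hj p (by omega), ha j hj (p + 1) (by omega), pp]

/-- The standard cocycle of an assignment of the generators. -/
def stdW (a : ℕ → G) : WV → WV → G
  | none, some (x, false) => a x
  | some (x, false), none => (a x)⁻¹
  | _, _ => 1

/-- The standard cocycle on the graph. -/
def stdG (a : ℕ → ℕ → G) : GV → GV → G
  | Sum.inl c, Sum.inl c' => if c.1 = c'.1 then stdW (a c.1) c.2 c'.2 else 1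
  | _, _ => 1

theorem stdG_cocy (N : ℕ) (R : List Word) (a : ℕ → ℕ → G) : Cocy (lam N R) (stdG a) := by
  refine cocy_of_graph (graph_lam N R) ?_ ?_
  · rintro (⟨j, _ | ⟨x, _ | _⟩⟩ | _) <;> simp [stdG, stdW]
  · rintro (⟨j, c⟩ | _) (⟨j', c'⟩ | _)
    · by_cases h : j = j'
      · subst h
        rcases c with _ | ⟨x, _ | _⟩ <;> rcases c' with _ | ⟨x', _ | _⟩ <;> simp [stdG, stdW]
      · simp [stdG, h, Ne.symm h]
    all_goals simp [stdG]

theorem gen_stdG (a : ℕ → ℕ → G) (j : ℕ) : gen (stdG a) j = a j := by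
  funext x; simp [gen, stdG, stdW]

/-! ### Cycles and cone points -/

/-- the cycle of relator `s` in copy `j` -/
def cyc (n j s p : ℕ) : CV := if p ≤ n then (j, s, p) else (j, s, 0)

/-- the cycles -/
def cycles (m : ℕ) (S : List Word) : List (List CV) :=
  (List.range (m + 1)).flatMap fun j => (List.range S.length).flatMap fun s =>
    pathCx (cyc (3 * (S.getD s []).length) j s) (3 * (S.getD s []).length + 1)

/-- the cone points -/
def apexes (m k : ℕ) : List (List PV) :=
  (List.range (m + 1)).flatMap fun j => (List.range k).map fun s => [(j, s), (j, s)]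

/-- attaching map -/
def phiC (S : List Word) (c : CV) : GV := Sum.inl (c.1, pos (S.getD c.2.1 []) c.2.2)

/-- collapsing map -/
def phiP (c : CV) : PV := (c.1, c.2.1)

theorem mem_cycles {m : ℕ} {S : List Word} {t : List CV} : t ∈ cycles m S ↔
    ∃ j ≤ m, ∃ s < S.length, ∃ p < 3 * (S.getD s []).length + 1,
      t = [cyc (3 * (S.getD s []).length) j s p, cyc (3 * (S.getD s []).length) j s (p + 1)] := by
  simp only [cycles, List.mem_flatMap, List.mem_range, mem_pathCx, Nat.lt_succ_iff]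

theorem mem_apexes {m k : ℕ} {t : List PV} : t ∈ apexes m k ↔
    ∃ j ≤ m, ∃ s < k, t = [(j, s), (j, s)] := by
  simp only [apexes, List.mem_flatMap, List.mem_range, List.mem_map, Nat.lt_succ_iff, eq_comm]

theorem graph_cycles (m : ℕ) (S : List Word) : Graph (cycles m S) := fun s hs => by
  obtain ⟨j, -, s, -, p, -, rfl⟩ := mem_cycles.1 hs
  exact ⟨_, _, rfl⟩

theorem graph_apexes (m k : ℕ) : Graph (apexes m k) := fun s hs => by
  obtain ⟨j, -, s, -, rfl⟩ := mem_apexes.1 hs
  exact ⟨_, _, rfl⟩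

theorem adj_apexes {m k : ℕ} {u v : PV} (h : Adj (apexes m k) u v) :
    u = v ∧ u.1 ≤ m ∧ u.2 < k := by
  obtain ⟨t, ht, hu, hv⟩ := h
  obtain ⟨j, hj, s, hs, rfl⟩ := mem_apexes.1 ht
  simp only [List.mem_cons, List.not_mem_nil, or_false, or_self] at hu hv
  subst hu hv
  exact ⟨rfl, hj, hs⟩

theorem adj_cyc {m : ℕ} {S : List Word} {j s p : ℕ} (hj : j ≤ m) (hs : s < S.length)
    (hp : p < 3 * (S.getD s []).length + 1) : Adj (cycles m S)
      (cyc (3 * (S.getD s []).length) j s p) (cyc (3 * (S.getD s []).length) j s (p + 1)) :=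
  adj_edge (mem_cycles.2 ⟨j, hj, s, hs, p, hp, rfl⟩)

theorem cyc_zero (n j s : ℕ) : cyc n j s 0 = (j, s, 0) := by simp [cyc]
theorem cyc_end (n j s : ℕ) : cyc n j s (n + 1) = (j, s, 0) := by simp [cyc]

theorem phiC_cyc (S : List Word) (j s p : ℕ) :
    phiC S (cyc (3 * (S.getD s []).length) j s p) = Sum.inl (j, pos (S.getD s []) p) := by
  unfold cyc
  split_ifs with h
  · rfl
  · rw [pos_big _ (by omega)]; rfl

theorem phiP_cyc (n j s p : ℕ) : phiP (cyc n j s p) = (j, s) := by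
  unfold cyc; split_ifs <;> rfl

theorem getD_letters {N : ℕ} {S : List Word} (hS : ∀ s ∈ S, ∀ c ∈ s, c.1 < N) (s : ℕ) :
    ∀ c ∈ S.getD s [], c.1 < N := by
  by_cases h : s < S.length
  · rw [List.getD_eq_getElem _ _ h]; exact hS _ (List.getElem_mem h)
  · rw [List.getD_eq_default _ _ (by omega)]; simp

theorem simp_phiC {N : ℕ} {S R : List Word} (hS : ∀ s ∈ S, ∀ c ∈ s, c.1 < N) :
    Simp (phiC S) (cycles R.length S) (lam N R) :=
  simp_of_edges (graph_cycles _ _) fun u v e => by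
    obtain ⟨j, hj, s, hs, p, hp, e⟩ := mem_cycles.1 e
    simp only [List.cons.injEq, and_true] at e
    obtain ⟨rfl, rfl⟩ := e
    rw [phiC_cyc, phiC_cyc]
    exact adj_pos hj (getD_letters hS s) p

theorem simp_phiP (m : ℕ) (S : List Word) : Simp phiP (cycles m S) (apexes m S.length) :=
  simp_of_edges (graph_cycles _ _) fun u v e => by
    obtain ⟨j, hj, s, hs, p, hp, e⟩ := mem_cycles.1 e
    simp only [List.cons.injEq, and_true] at e
    obtain ⟨rfl, rfl⟩ := e
    rw [phiP_cyc, phiP_cyc]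
    exact adj_edge (mem_apexes.2 ⟨j, hj, s, hs, rfl⟩)

theorem conn_cycles {m : ℕ} {S : List Word} {v : CV} (h : Adj (cycles m S) v v) :
    v.1 ≤ m ∧ v.2.1 < S.length ∧ Conn (cycles m S) (v.1, v.2.1, 0) v := by
  obtain ⟨t, ht, hv, -⟩ := h
  obtain ⟨j, hj, s, hs, p, hp, rfl⟩ := mem_cycles.1 ht
  have key : ∀ q ≤ 3 * (S.getD s []).length + 1, v = cyc (3 * (S.getD s []).length) j s q →
      v.1 ≤ m ∧ v.2.1 < S.length ∧ Conn (cycles m S) (v.1, v.2.1, 0) v := by
    rintro q hq rfl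
    have := path_conn (K := cycles m S) (n := q) fun p hp => adj_cyc hj hs (p := p) (by omega)
    rw [cyc_zero] at this
    have e := phiP_cyc (3 * (S.getD s []).length) j s q
    simp only [phiP, Prod.mk.injEq] at e
    rw [e.1, e.2]
    exact ⟨hj, hs, this⟩
  simp only [List.mem_cons, List.not_mem_nil, or_false] at hv
  rcases hv with hv | hv
  · exact key _ (by omega) hv
  · exact key _ (by omega) hv

theorem cycle_cohom {m : ℕ} {S : List Word} {ω ω' : CV → CV → G} (c : Cocy (cycles m S) ω)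
    (c' : Cocy (cycles m S) ω') (h : ∀ j ≤ m, ∀ s < S.length,
      pp ω (cyc (3 * (S.getD s []).length) j s) (3 * (S.getD s []).length + 1) =
      pp ω' (cyc (3 * (S.getD s []).length) j s) (3 * (S.getD s []).length + 1)) :
    Cohom (cycles m S) ω ω' := by
  let H : CV → G := fun v => (pp ω (cyc (3 * (S.getD v.2.1 []).length) v.1 v.2.1) v.2.2)⁻¹ *
    pp ω' (cyc (3 * (S.getD v.2.1 []).length) v.1 v.2.1) v.2.2
  have hH : ∀ j ≤ m, ∀ s < S.length, ∀ p ≤ 3 * (S.getD s []).length + 1,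
      H (cyc (3 * (S.getD s []).length) j s p) = (pp ω (cyc (3 * (S.getD s []).length) j s) p)⁻¹ *
        pp ω' (cyc (3 * (S.getD s []).length) j s) p := by
    intro j hj s hs p hp
    by_cases h1 : p ≤ 3 * (S.getD s []).length
    · have : cyc (3 * (S.getD s []).length) j s p = (j, s, p) := by unfold cyc; rw [if_pos h1]
      rw [this]
    · obtain rfl : p = 3 * (S.getD s []).length + 1 := by omega
      rw [cyc_end, h j hj s hs]
      simp [H, pp]
  refine ⟨H, eq_of_edges (graph_cycles m S) c c' H fun u v e => ?_⟩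
  obtain ⟨j, hj, s, hs, p, hp, e⟩ := mem_cycles.1 e
  simp only [List.cons.injEq, and_true] at e
  obtain ⟨rfl, rfl⟩ := e
  rw [hH j hj s hs p (by omega), hH j hj s hs (p + 1) (by omega), pp, pp]
  group

theorem pp_phiC {N : ℕ} {S R : List Word} (hS : ∀ s ∈ S, ∀ c ∈ s, c.1 < N) {η : GV → GV → G}
    (hη : Cocy (lam N R) η) {j : ℕ} (hj : j ≤ R.length) (s : ℕ) :
    pp (fun u v => η (phiC S u) (phiC S v)) (cyc (3 * (S.getD s []).length) j s)
      (3 * (S.getD s []).length + 1) = ev (gen η j) (S.getD s []) := by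
  rw [← pp_word hη hj (getD_letters hS s)]
  exact pp_congr _ fun p _ => by simp only [phiC_cyc]

/-- The two-complex. -/
def cxL (N : ℕ) (S R : List Word) : List (List LV) :=
  dmc (fun c => c.2.2) (cycles R.length S) (lam N R) (apexes R.length S.length) (phiC S) phiP

theorem dim_cxL (N : ℕ) (S R : List Word) : Dim 3 (cxL N S R) := by
  refine dmc_dim (graph_dim (graph_cycles _ _)) ((graph_dim (graph_lam _ _)).mono (by omega))
    ((graph_dim (graph_apexes _ _)).mono (by omega)) fun t ht u hu v hv e => ?_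
  obtain ⟨j, hj, s, hs, p, hp, rfl⟩ := mem_cycles.1 ht
  have a : ∀ w ∈ [cyc (3 * (S.getD s []).length) j s p, cyc (3 * (S.getD s []).length) j s (p + 1)],
      phiP w = (j, s) := by simp [phiP_cyc]
  have := (a u hu).trans (a v hv).symm
  simp only [phiP, Prod.mk.injEq] at this
  exact Prod.ext this.1 (Prod.ext this.2 e)

theorem relators_of_cocy {N : ℕ} {S R : List Word} (hS : ∀ s ∈ S, ∀ c ∈ s, c.1 < N)
    {ω : LV → LV → G} (hω : Cocy (cxL N S R) ω) {j : ℕ} (hj : j ≤ R.length) :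
    ∀ σ ∈ S, ev (gen (fun u v => ω (in1 u) (in1 v)) j) σ = 1 := by
  intro σ hσ
  obtain ⟨s, hs, rfl⟩ := List.getElem_of_mem hσ
  obtain ⟨h, hh⟩ := dmc_cohom hω
  rw [← List.getD_eq_getElem _ [] hs, ← pp_phiC hS (hω.comap simp_in1) hj s,
    pp_conj (ω' := fun u v => ω (in2 (phiP u)) (in2 (phiP v)))
      (γ' := cyc (3 * (S.getD s []).length) j s)
      (fun p => h (cyc (3 * (S.getD s []).length) j s p)) _ fun p hp => hh _ _ (adj_cyc hj hs hp),
    pp_one, cyc_zero, cyc_end]
  · simp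
  · intro p hp
    simp only [phiP_cyc]
    exact hω.self ((adj_edge (mem_apexes.2 ⟨j, hj, s, hs, rfl⟩)).map simp_in2)

theorem conn_cxL {N : ℕ} {S R : List Word} (hS : ∀ s ∈ S, ∀ c ∈ s, c.1 < N) {v : LV}
    (h : Adj (cxL N S R) v v) : Conn (cxL N S R) (in1 (Sum.inl (0, none))) v := by
  have h1 : ∀ g, Adj (lam N R) g g → Conn (cxL N S R) (in1 (Sum.inl (0, none))) (in1 g) :=
    fun g hg => (conn_lam hg).map simp_in1
  have h0 : ∀ c, Adj (cycles R.length S) c c →
      Conn (cxL N S R) (in1 (Sum.inl (0, none))) (Sum.inl c) :=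
    fun c hc => (h1 _ (hc.map (simp_phiC hS))).tail (adj_cyl1 hc).symm
  obtain ⟨t, ht, hv, -⟩ := h
  rcases List.mem_append.1 ht with ht | ht <;>
    rcases mem_half.1 ht with ⟨s, hs, a, ha, rfl⟩ | ⟨s, hs, rfl⟩
  · rcases mem_facet.1 hv with ⟨u, hu, -, rfl⟩ | ⟨u, hu, -, rfl⟩
    · exact h0 u ⟨s, hs, hu, hu⟩
    · exact h1 _ (Adj.map (simp_phiC hS) ⟨s, hs, hu, hu⟩)
  · obtain ⟨b, hb, rfl⟩ := List.mem_map.1 hv
    exact h1 b ⟨s, hs, hb, hb⟩
  · rcases mem_facet.1 hv with ⟨u, hu, -, rfl⟩ | ⟨u, hu, -, rfl⟩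
    · exact h0 u ⟨s, hs, hu, hu⟩
    · exact (h0 u ⟨s, hs, hu, hu⟩).tail (adj_cyl2 ⟨s, hs, hu, hu⟩)
  · obtain ⟨b, hb, rfl⟩ := List.mem_map.1 hv
    obtain ⟨-, hj, hs'⟩ := adj_apexes ⟨s, hs, hb, hb⟩
    have := (adj_cyc hj hs' (Nat.zero_lt_succ _)).left
    rw [cyc_zero] at this
    exact (h0 _ this).tail (adj_cyl2 this)

end Pool.Agent.Lib.MP_4c90a8_lc
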