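import Mathlib
import Pool.Agent.Lib.MP_4c90a8_lc.Pres
import Pool.Agent.Lib.MP_4c90a8_lc.Cover

/-! The three-complex of a presentation; it is contractible iff the group is trivial. -/

namespace Pool.Agent.Lib.MP_4c90a8_lc

set_option linter.unusedSectionVars false

open Pool.Agent.Shared.GroupUndec

theorem adj_base (N : ℕ) (S R : List Word) :
    Adj (cxL N S R) (in1 (Sum.inl (0, none))) (in1 (Sum.inl (0, none))) :=
  (adj_b (Nat.zero_le _)).map simp_in1

theorem L_null {N : ℕ} {S R : List Word} (hS : ∀ s ∈ S, ∀ c ∈ s, c.1 < N) (hs : Surj S)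
    {Z : Type} [TopologicalSpace Z] (z : Z) (f : C(real (cxL N S R), Z))
    (h0 : Joined z (f (vtx (adj_base N S R))))
    (hc : Cobd (lam N R) fun u v => om z f (in1 u) (in1 v)) :
    f.Homotopic (ContinuousMap.const _ z) := by
  classical
  have hj : ∀ v (h : Adj (cxL N S R) v v), Joined z (f (vtx h)) := fun v h =>
    joined_of_conn z f (conn_cxL hS h) _ h0 h
  have hb : ∀ c : {c : ℕ × ℕ // c.1 ≤ R.length ∧ c.2 < S.length},
      Adj (cycles R.length S) (c.1.1, c.1.2, 0) (c.1.1, c.1.2, 0) := fun c => by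
    have := (adj_cyc c.2.1 c.2.2 (Nat.zero_lt_succ _)).left
    rwa [cyc_zero] at this
  refine DMC_MV (simp_phiC hS) (simp_phiP _ _) f z ?_ ?_ _ hb (fun κ => ?_) (fun g hg => ?_)
  · refine GH_null (graph_lam N R) z _ (fun v h => ?_) ?_
    · show Joined z (f (smap simp_in1 (vtx h)))
      rw [smap_vtx]; exact hj _ _
    · obtain ⟨h, hh⟩ := hc
      exact ⟨h, fun u v a => (om_smap simp_in1 z f a).trans (hh u v a)⟩
  · refine GH_null (graph_apexes _ _) z _ (fun v h => ?_) ⟨fun _ => 1, fun u v a => ?_⟩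
    · show Joined z (f (smap simp_in2 (vtx h)))
      rw [smap_vtx]; exact hj _ _
    · obtain ⟨rfl, -⟩ := adj_apexes a
      simp [(om_cocy z _).self a]
  · obtain ⟨k, -, hk⟩ := GE (graph_apexes R.length S.length)
      (fun c : PV => if h : c.1 ≤ R.length ∧ c.2 < S.length then κ ⟨c, h⟩ else Path.refl z)
      (fun _ _ _ => True) (fun u v a => by
        obtain ⟨rfl, -⟩ := adj_apexes a
        exact ⟨ContinuousMap.const _ _, rfl, rfl, trivial⟩) (fun _ _ _ _ _ => trivial)
      (fun _ _ => trivial)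
    exact ⟨k, fun c => (hk _ _).trans (dif_pos c.2)⟩
  · let _ : CommGroup (Pi1 (Path.refl z)) :=
      { (inferInstance : Group (Pi1 (Path.refl z))) with mul_comm := pi1_loop_comm z }
    choose a ha using fun j => hs (Pi1 (Path.refl z)) fun s =>
      pp (om (Path.refl z) g) (cyc (3 * (S.getD s []).length) j s) (3 * (S.getD s []).length + 1)
    obtain ⟨t, ht1, ht2⟩ := GE_cocy (graph_lam N R) (Path.refl z) (fun _ => Path.refl z)
      (fun _ _ => Joined.refl _) (stdG a) (stdG_cocy N R a)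
    refine ⟨t, GH (graph_cycles _ _) (Path.refl z) _ _ (fun v h => ?_) (fun v h => ?_) ?_⟩
    · obtain ⟨a1, a2, a3⟩ := conn_cycles h
      exact joined_of_conn _ g a3 (hb ⟨(v.1, v.2.1), a1, a2⟩) (hg ⟨(v.1, v.2.1), a1, a2⟩) h
    · show Joined _ (t (smap (simp_phiC hS) (vtx h)))
      rw [smap_vtx, ht2]
    · refine cycle_cohom (om_cocy _ _) (om_cocy _ _) fun j hj s hs => ?_
      refine (ha j s hs).symm.trans ?_
      rw [← gen_stdG a j]
      refine (pp_phiC hS (stdG_cocy N R a) hj s).symm.trans (pp_congr _ fun p hp => ?_)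
      have := adj_cyc hj hs hp
      rw [om_smap _ _ _ this, ht1 _ _ (this.map (simp_phiC hS))]

/-- folding the graph -/
def foldG (R : List Word) : GV → GV :=
  Sum.elim (fun c => Sum.inl (0, c.2)) fun c => Sum.inl (0, pos (R.getD c.1 []) c.2)

/-- folding the two-complex -/
def psi (R : List Word) : LV → LV :=
  Sum.map (fun c => (0, c.2)) (Sum.map (foldG R) fun c => (0, c.2))

theorem foldG_arc (R R' : List Word) (j p : ℕ)
    (h : (R'.getD j []).length ≤ (R.getD j []).length) :
    foldG R' (arc (3 * (R.getD j []).length) j p) = Sum.inl (0, pos (R'.getD j []) p) := by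
  unfold arc
  split_ifs with h1 h2
  · subst h1; rfl
  · rfl
  · rw [pos_big _ (by omega)]; rfl

theorem simp_foldG {N : ℕ} {R R' : List Word} (hR : ∀ s ∈ R', ∀ c ∈ s, c.1 < N)
    (h : ∀ j, (R'.getD j []).length ≤ (R.getD j []).length) :
    Simp (foldG R') (lam N R) (lam N []) :=
  simp_of_edges (graph_lam N R) fun u v e => by
    rcases mem_lam.1 e with ⟨j, hj, e | ⟨x, hx, e | e | e⟩⟩ | ⟨j, hj, p, hp, e⟩ <;>
      simp only [List.cons.injEq, and_true] at e <;> obtain ⟨rfl, rfl⟩ := e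
    · exact adj_b (Nat.zero_le _)
    · exact adj_1 (Nat.zero_le _) hx
    · exact adj_2 (Nat.zero_le _) hx
    · exact adj_3 (Nat.zero_le _) hx
    · rw [foldG_arc _ _ _ _ (h j), foldG_arc _ _ _ _ (h j)]
      exact adj_pos (Nat.zero_le _) (getD_letters hR j) p

theorem simp_psi {N : ℕ} {S R R' : List Word} (hR : ∀ s ∈ R', ∀ c ∈ s, c.1 < N)
    (h : ∀ j, (R'.getD j []).length ≤ (R.getD j []).length) :
    Simp (psi R') (cxL N S R) (cxL N S []) := by
  refine simp_dmc (simp_of_edges (graph_cycles _ _) fun u v e => ?_) (simp_foldG hR h)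
    (simp_of_edges (graph_apexes _ _) fun u v e => ?_) (fun _ => rfl) (fun _ => rfl) fun _ => rfl
  · obtain ⟨j, hj, s, hs, p, hp, e⟩ := mem_cycles.1 e
    simp only [List.cons.injEq, and_true] at e
    obtain ⟨rfl, rfl⟩ := e
    have : ∀ n q, (0, (cyc n j s q).2) = cyc n 0 s q := fun n q => by
      unfold cyc; split_ifs <;> rfl
    rw [this, this]
    exact adj_cyc (Nat.zero_le _) hs hp
  · obtain ⟨rfl, -, h2⟩ := adj_apexes (adj_edge e)
    exact adj_edge (mem_apexes.2 ⟨0, Nat.zero_le _, u.2, h2, rfl⟩)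

theorem simp_psi1 {N : ℕ} {S R : List Word} : Simp (psi []) (cxL N S R) (cxL N S []) :=
  simp_psi (by simp) (by simp)

theorem simp_psi2 {N : ℕ} {S R : List Word} (hR : ∀ s ∈ R, ∀ c ∈ s, c.1 < N) :
    Simp (psi R) (cxL N S R) (cxL N S []) := simp_psi hR fun _ => le_rfl

/-- vertices of the three-complex -/
abbrev XV := LV ⊕ LV ⊕ LV

instance decXV : DecidableEq XV := inferInstance

/-- The three-complex. -/
def cxX (N : ℕ) (S R : List Word) : List (List XV) :=
  dmc Encodable.encode (cxL N S R) (cxL N S []) (cxL N S []) (psi []) (psi R)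

theorem dim_cxX (N : ℕ) (S R : List Word) : Dim 4 (cxX N S R) :=
  dmc_dim (dim_cxL N S R) ((dim_cxL N S []).mono (by omega)) ((dim_cxL N S []).mono (by omega))
    fun _ _ _ _ _ _ e => Encodable.encode_injective e

theorem triv_central {G : Type} [Group G] {N : ℕ} {S R : List Word} (hT : Triv N S R)
    (hP : Perf N S) (hS : ∀ s ∈ S, ∀ c ∈ s, c.1 < N) (hR : ∀ s ∈ R, ∀ c ∈ s, c.1 < N) (a : ℕ → G)
    (h1 : ∀ s ∈ S, ev a s = 1) (h2 : ∀ r ∈ R, ∀ x < N, ev a r * a x = a x * ev a r) :
    ∀ x < N, a x = 1 := by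
  classical
  let H : Subgroup G := Subgroup.closure (a '' {x | x < N})
  let b : ℕ → H := fun x => if h : x < N then ⟨a x, Subgroup.subset_closure ⟨x, h, rfl⟩⟩ else 1
  have hb : ∀ x < N, (b x : G) = a x := fun x hx => by simp only [b]; rw [dif_pos hx]
  have hev : ∀ w : Word, (∀ c ∈ w, c.1 < N) → ((ev b w : H) : G) = ev a w := fun w hw =>
    (map_ev b H.subtype w).trans (ev_congr hw hb)
  have hcen : ∀ g : H, (∀ x < N, (g : G) * a x = a x * g) → g ∈ Subgroup.center H := by
    intro g hg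
    rw [Subgroup.mem_center_iff]
    rintro ⟨k, hk⟩
    apply Subtype.ext
    show k * g = g * k
    induction hk using Subgroup.closure_induction with
    | mem _ h => obtain ⟨x, hx, rfl⟩ := h; exact (hg x hx).symm
    | one => simp
    | mul x y _ _ hx hy => rw [mul_assoc, hy, ← mul_assoc, hx, mul_assoc]
    | inv x _ hx => rw [inv_mul_eq_iff_eq_mul, ← mul_assoc, hx, mul_inv_cancel_right]
  have hq := hT (H ⧸ Subgroup.center H) (fun x => QuotientGroup.mk' _ (b x))
    (fun s hs => by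
      rw [← map_ev, show ev b s = 1 from Subtype.ext ((hev s (hS s hs)).trans (h1 s hs)), map_one])
    (fun r hr => by
      rw [← map_ev, QuotientGroup.mk'_apply, QuotientGroup.eq_one_iff]
      exact hcen _ fun x hx => by rw [hev r (hR r hr)]; exact h2 r hr x hx)
  have hc : ∀ x < N, b x ∈ Subgroup.center H := fun x hx => by
    simpa using hq x hx
  have hall : ∀ g : H, g ∈ Subgroup.center H := fun g => hcen g fun x hx => by
    have := congrArg Subtype.val (Subgroup.mem_center_iff.1 (hc x hx) g)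
    simpa [hb x hx] using this
  let _ : CommGroup H := { (inferInstance : Group H) with
    mul_comm := fun x y => Subgroup.mem_center_iff.1 (hall y) x }
  intro x hx
  rw [← hb x hx, hP H b (fun s hs => Subtype.ext ((hev s (hS s hs)).trans (h1 s hs))) x hx]
  rfl

theorem X_gen {G : Type} [Group G] {N : ℕ} {S R : List Word} (hT : Triv N S R)
    (hP : Perf N S) (hS : ∀ s ∈ S, ∀ c ∈ s, c.1 < N) (hR : ∀ s ∈ R, ∀ c ∈ s, c.1 < N)
    {ω : XV → XV → G} (hω : Cocy (cxX N S R) ω) :
    Cobd (lam N []) (fun u v => ω (in1 (in1 u)) (in1 (in1 v))) ∧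
    Cobd (lam N []) (fun u v => ω (in2 (in1 u)) (in2 (in1 v))) := by
  obtain ⟨μ, hμ⟩ := dmc_cohom hω
  have c1 : Cocy (cxL N S []) fun u v => ω (in1 u) (in1 v) := hω.comap simp_in1
  have c2 : Cocy (cxL N S []) fun u v => ω (in2 u) (in2 v) := hω.comap simp_in2
  have d1 : Cocy (lam N []) fun u v => ω (in1 (in1 u)) (in1 (in1 v)) := c1.comap simp_in1
  have d2 : Cocy (lam N []) fun u v => ω (in2 (in1 u)) (in2 (in1 v)) := c2.comap simp_in1
  have r2 := relators_of_cocy hS c2 (Nat.zero_le _)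
  generalize hα : (fun u v => ω (in1 (in1 u)) (in1 (in1 v))) = α at d1
  generalize hβ : (fun u v => ω (in2 (in1 u)) (in2 (in1 v))) = β at d2 r2
  have key : ∀ g g', Adj (lam N R) g g' → α (foldG [] g) (foldG [] g') =
      μ (in1 g) * β (foldG R g) (foldG R g') * (μ (in1 g'))⁻¹ := fun g g' a => by
    rw [← hα, ← hβ]
    exact hμ _ _ (a.map simp_in1)
  have k1 : ∀ j ≤ R.length, ∀ x < N, gen α 0 x =
      μ (in1 (Sum.inl (j, none))) * gen β 0 x * (μ (in1 (Sum.inl (j, none))))⁻¹ := by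
    intro j hj x hx
    have e1 := key _ _ (adj_1 hj hx)
    have e2 := key _ _ (adj_2 hj hx)
    have e3 := key _ _ (adj_3 hj hx)
    simp only [foldG, Sum.elim_inl] at e1 e2 e3
    rw [gen, e1, e2, e3, gen]
    group
  have k2 : ∀ j < R.length, μ (in1 (Sum.inl (0, none))) * ev (gen β 0) (R.getD j []) *
      (μ (in1 (Sum.inl (j + 1, none))))⁻¹ = 1 := by
    intro j hj
    rw [← pp_word d2 (Nat.zero_le _) (getD_letters hR j)]
    have := pp_conj (ω := fun _ _ : Unit => (1 : G)) (γ := fun _ => ()) (ω' := β)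
      (γ' := fun p => Sum.inl (0, pos (R.getD j []) p))
      (fun p => μ (in1 (arc (3 * (R.getD j []).length) j p))) (3 * (R.getD j []).length + 1)
      fun p hp => by
        have := key _ _ (adj_arc hj hp)
        rw [foldG_arc _ _ _ _ (by simp), foldG_arc _ _ _ _ (by simp), foldG_arc _ _ _ _ le_rfl,
          foldG_arc _ _ _ _ le_rfl] at this
        rw [← this]
        simp only [List.getD_nil, pos_nil]
        exact (d1.self (adj_b (Nat.zero_le _))).symm
    rw [pp_one _ fun _ _ => rfl, arc_end] at this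
    exact this.symm
  have hβ1 : ∀ x < N, gen β 0 x = 1 := by
    refine triv_central hT hP hS hR _ r2 fun r hr x hx => ?_
    obtain ⟨j, hj, rfl⟩ := List.getElem_of_mem hr
    have e := k2 j hj
    rw [List.getD_eq_getElem _ _ hj, mul_inv_eq_one] at e
    have e' := (k1 0 (Nat.zero_le _) x hx).symm.trans (k1 (j + 1) hj x hx)
    rw [← e] at e'
    have e2 : gen β 0 x = ev (gen β 0) R[j] * gen β 0 x * (ev (gen β 0) R[j])⁻¹ := by
      rw [← mul_left_cancel_iff (a := μ (in1 (Sum.inl (0, none)))),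
        ← mul_right_cancel_iff (a := (μ (in1 (Sum.inl (0, none))))⁻¹), e']
      group
    rw [← mul_inv_eq_iff_eq_mul, ← e2]
  refine ⟨cobd_lam d1 fun j hj x hx => ?_, cobd_lam d2 fun j hj x hx => ?_⟩
  · obtain rfl : j = 0 := by simpa using hj
    rw [k1 0 (Nat.zero_le _) x hx, hβ1 x hx]; simp
  · obtain rfl : j = 0 := by simpa using hj
    exact hβ1 x hx

theorem contractible_of_triv {N : ℕ} {S R : List Word} (hT : Triv N S R)
    (hP : Perf N S) (hs : Surj S) (hS : ∀ s ∈ S, ∀ c ∈ s, c.1 < N)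
    (hR : ∀ s ∈ R, ∀ c ∈ s, c.1 < N) : ContractibleSpace (real (cxX N S R)) := by
  have b1 : Adj (cxX N S R) (in1 (in1 (Sum.inl (0, none)))) (in1 (in1 (Sum.inl (0, none)))) :=
    (adj_base N S []).map simp_in1
  let z : real (cxX N S R) := vtx b1
  obtain ⟨c1, c2⟩ := X_gen hT hP hS hR (om_cocy z (ContinuousMap.id _))
  refine (contractible_iff_id_nullhomotopic _).2 ⟨z, ?_⟩
  refine DMC_MV simp_psi1 (simp_psi2 hR) (ContinuousMap.id (real (cxX N S R))) z ?_ ?_
    (fun _ : Unit => in1 (Sum.inl (0, none))) (fun _ => adj_base N S R)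
    (fun κ => ⟨ContinuousMap.const _ (κ ()), fun _ => rfl⟩) (fun g hg => ?_)
  · refine L_null hS hs z _ ?_ ?_
    · show Joined z (smap simp_in1 (vtx _))
      rw [smap_vtx]
      exact Joined.refl _
    · obtain ⟨h, hh⟩ := c1
      exact ⟨h, fun u v a => (om_smap simp_in1 z _ (a.map simp_in1)).trans (hh u v a)⟩
  · refine L_null hS hs z _ ?_ ?_
    · show Joined z (smap simp_in2 (vtx _))
      rw [smap_vtx]
      exact joined_of_conn z (ContinuousMap.id _) ((Relation.ReflTransGen.single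
        (adj_cyl1 (adj_base N S R)).symm).tail (adj_cyl2 (adj_base N S R))) b1 (Joined.refl _)
        (adj_cyl2 (adj_base N S R)).right
    · obtain ⟨h, hh⟩ := c2
      exact ⟨h, fun u v a => (om_smap simp_in2 z _ (a.map simp_in1)).trans (hh u v a)⟩
  · refine ⟨ContinuousMap.const _ (Path.refl z), L_null hS hs (Path.refl z) g (hg ()) ?_⟩
    let _ : CommGroup (Pi1 (Path.refl z)) :=
      { (inferInstance : Group (Pi1 (Path.refl z))) with mul_comm := pi1_loop_comm z }
    exact cobd_lam ((om_cocy _ g).comap simp_in1) fun j hj =>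
      hP (Pi1 (Path.refl z)) _ (relators_of_cocy hS (om_cocy _ g) hj)

theorem triv_of_cobd {N : ℕ} {S R : List Word} (hS : ∀ s ∈ S, ∀ c ∈ s, c.1 < N)
    (hR : ∀ s ∈ R, ∀ c ∈ s, c.1 < N)
    (h : ∀ (G : Type) [Group G] (ω : XV → XV → G), Cocy (cxX N S R) ω → Cobd (cxX N S R) ω) :
    Triv N S R := by
  intro G _ a h1 h2
  have cη := stdG_cocy N [] fun _ => a
  generalize hη : (stdG fun _ => a) = η at cη
  have hg : gen η 0 = a := by rw [← hη, gen_stdG]
  obtain ⟨ωB, cB, hB⟩ := dmc_glue (rk := fun c => c.2.2) (simp_phiC (R := []) hS)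
    (simp_phiP _ _) cη (cocy_one _)
    (cycle_cohom (cη.comap (simp_phiC hS)) (cocy_one _) fun j hj s hs => by
      obtain rfl : j = 0 := by simpa using hj
      rw [pp_phiC hS cη hj, pp_one _ fun _ _ => rfl, hg, List.getD_eq_getElem _ _ hs]
      exact h1 _ (List.getElem_mem hs))
  let m : GV → G := Sum.elim (fun _ => 1)
    fun c => pp η (fun p => Sum.inl (0, pos (R.getD c.1 []) p)) c.2
  have hm : ∀ j < R.length, ∀ p ≤ 3 * (R.getD j []).length + 1,
      m (arc (3 * (R.getD j []).length) j p) =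
        pp η (fun p => Sum.inl (0, pos (R.getD j []) p)) p := by
    intro j hj p hp
    unfold arc
    split_ifs with a1 a2
    · subst a1; rfl
    · rfl
    · obtain rfl : p = 3 * (R.getD j []).length + 1 := by omega
      rw [pp_word cη (Nat.zero_le _) (getD_letters hR j), hg, List.getD_eq_getElem _ _ hj]
      exact (h2 _ (List.getElem_mem hj)).symm
  have key := eq_of_edges (graph_lam N R) (cη.comap (simp_foldG (R' := []) (by simp) (by simp)))
    (cη.comap (simp_foldG hR fun _ => le_rfl)) m fun u v e => by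
      rcases mem_lam.1 e with ⟨j, hj, e | ⟨x, hx, e | e | e⟩⟩ | ⟨j, hj, p, hp, e⟩ <;>
        simp only [List.cons.injEq, and_true] at e <;> obtain ⟨rfl, rfl⟩ := e
      · simp [m, foldG]
      · simp [m, foldG]
      · simp [m, foldG]
      · simp [m, foldG]
      · rw [hm j hj p (by omega), hm j hj (p + 1) (by omega), pp]
        rw [foldG_arc _ _ _ _ (by simp), foldG_arc _ _ _ _ (by simp), foldG_arc _ _ _ _ le_rfl,
          foldG_arc _ _ _ _ le_rfl]
        simp only [List.getD_nil, pos_nil]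
        rw [cη.self (adj_b (Nat.zero_le _))]
        group
  obtain ⟨ω, cω, hω⟩ := dmc_glue (rk := Encodable.encode) (simp_psi1 (S := S) (R := R))
    (simp_psi2 hR) cB cB ⟨Sum.elim (fun _ => 1) (Sum.elim m fun _ => 1), by
      rintro u v ⟨t, ht, hu, hv⟩
      rcases List.mem_append.1 ht with ht | ht <;>
        rcases mem_half.1 ht with ⟨s, hs, a, ha, rfl⟩ | ⟨s, hs, rfl⟩
      · rcases mem_facet.1 hu with ⟨u, -, -, rfl⟩ | ⟨u, -, -, rfl⟩ <;>
          rcases mem_facet.1 hv with ⟨v, -, -, rfl⟩ | ⟨v, -, -, rfl⟩ <;>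
          simp [psi, in1, phiC, foldG, m]
      · obtain ⟨u, hu', rfl⟩ := List.mem_map.1 hu
        obtain ⟨v, hv', rfl⟩ := List.mem_map.1 hv
        have := key u v ⟨s, hs, hu', hv'⟩
        rw [← hB, ← hB] at this
        exact this
      · rcases mem_facet.1 hu with ⟨u, -, -, rfl⟩ | ⟨u, -, -, rfl⟩ <;>
          rcases mem_facet.1 hv with ⟨v, -, -, rfl⟩ | ⟨v, -, -, rfl⟩ <;>
          simp [psi, in2]
      · obtain ⟨u, hu, rfl⟩ := List.mem_map.1 hu
        obtain ⟨v, hv, rfl⟩ := List.mem_map.1 hv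
        simp [psi, in2]⟩
  obtain ⟨k, hk⟩ := h G ω cω
  have e : ∀ u v, Adj (lam N []) u v → η u v = (k (in1 (in1 u)))⁻¹ * k (in1 (in1 v)) :=
    fun u v c => by rw [← hB, ← hω]; exact hk _ _ ((c.map simp_in1).map simp_in1)
  intro x hx
  rw [← hg, gen, e _ _ (adj_1 (Nat.zero_le _) hx), e _ _ (adj_2 (Nat.zero_le _) hx),
    e _ _ (adj_3 (Nat.zero_le _) hx)]
  group

/-! ### Relabelling -/

theorem relabel {V : Type} [DecidableEq V] [Encodable V] [Inhabited V] (K : List (List V)) :
    ContractibleSpace (real (K.map (List.map Encodable.encode))) ↔ ContractibleSpace (real K) := by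
  have s1 : Simp Encodable.encode K (K.map (List.map Encodable.encode)) := fun s hs =>
    ⟨_, List.mem_map_of_mem hs, fun v hv => List.mem_map_of_mem hv⟩
  have s2 : Simp (fun n => (Encodable.decode n : Option V).getD default)
      (K.map (List.map Encodable.encode)) K := fun t ht => by
    obtain ⟨s, hs, rfl⟩ := List.mem_map.1 ht
    refine ⟨s, hs, fun n hn => ?_⟩
    obtain ⟨v, hv, rfl⟩ := List.mem_map.1 hn
    simpa using hv
  refine ContinuousMap.HomotopyEquiv.contractibleSpace_iff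
    ⟨smap s2, smap s1, lin_homotopic _ _ fun y => ?_, lin_homotopic _ _ fun y => ?_⟩
  · obtain ⟨t, ht, hy⟩ := y.2
    refine ⟨t, ht, smap_mem s1 _ fun w hw => ?_, hy⟩
    obtain ⟨n, hn, rfl⟩ := smap_ne _ _ hw
    obtain ⟨s, hs, rfl⟩ := List.mem_map.1 ht
    have := cell_supp hy hn
    obtain ⟨v, hv, rfl⟩ := List.mem_map.1 this
    simpa using hv
  · obtain ⟨t, ht, hy⟩ := y.2
    refine ⟨t, ht, smap_mem s2 _ fun w hw => ?_, hy⟩
    obtain ⟨n, hn, rfl⟩ := smap_ne _ _ hw
    simpa using cell_supp hy hn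

theorem contractible_iff {N : ℕ} {S R : List Word} (hP : Perf N S) (hs : Surj S)
    (hS : ∀ s ∈ S, ∀ c ∈ s, c.1 < N) (hR : ∀ s ∈ R, ∀ c ∈ s, c.1 < N) :
    ContractibleSpace (real ((cxX N S R).map (List.map Encodable.encode))) ↔ Triv N S R := by
  rw [relabel]
  exact ⟨fun _ => triv_of_cobd hS hR fun _ _ _ c => cobd_of_contractible c,
    fun h => contractible_of_triv h hP hs hS hR⟩

end Pool.Agent.Lib.MP_4c90a8_lc
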