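import Mathlib
import Pool.Agent.Lib.MP_4c90a8_lc.Main

/-! The three-complex is computable from the presentation. -/

namespace Pool.Agent.Lib.MP_4c90a8_lc

set_option linter.unusedSectionVars false

open Pool.Agent.Shared.GroupUndec Primrec

section generic

variable {α A B C V : Type} [Primcodable α] [Primcodable A] [Primcodable B] [Primcodable C]
  [Primcodable V] [DecidableEq A] [DecidableEq B] [DecidableEq C] [DecidableEq V]

theorem prim_facet {rk : A → ℕ} (hrk : Primrec rk) {ι : A → V} (hι : Primrec ι) {ψ : α → A → V}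
    (hψ : Primrec₂ ψ) : Primrec₂ fun (x : α × List A) (a : A) => facet rk ι (ψ x.1) x.2 a := by
  have f1 : Primrec₂ fun (s : List A) (a : A) => s.filter fun v => decide (rk v ≤ rk a) :=
    PrimrecRel.listFilter (R := fun v a => rk v ≤ rk a)
      (nat_le.comp (hrk.comp fst) (hrk.comp snd))
  have f2 : Primrec₂ fun (s : List A) (a : A) => s.filter fun v => decide (rk a ≤ rk v) :=
    PrimrecRel.listFilter (R := fun v a => rk a ≤ rk v)
      (nat_le.comp (hrk.comp snd) (hrk.comp fst))
  exact list_append.comp (list_map (f1.comp (snd.comp fst) snd) (hι.comp snd).to₂)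
    (list_map (f2.comp (snd.comp fst) snd) (hψ.comp (fst.comp (fst.comp fst)) snd).to₂)

theorem prim_half {rk : A → ℕ} (hrk : Primrec rk) {L : α → List (List A)} (hL : Primrec L)
    {K : α → List (List B)} (hK : Primrec K) {ι : A → V} (hι : Primrec ι) {κ : B → V}
    (hκ : Primrec κ) {φ : α → A → B} (hφ : Primrec₂ φ) :
    Primrec fun x => half rk (L x) (K x) ι κ (φ x) :=
  list_append.comp
    (list_flatMap hL (list_map snd
      (prim_facet (ψ := fun x a => κ (φ x a)) hrk hι (hκ.comp hφ))).to₂)
    (list_map hK (list_map snd (hκ.comp snd).to₂).to₂)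

theorem prim_dmc {rk : A → ℕ} (hrk : Primrec rk) {L : α → List (List A)} (hL : Primrec L)
    {K1 : α → List (List B)} (hK1 : Primrec K1) {K2 : α → List (List C)} (hK2 : Primrec K2)
    {φ1 : α → A → B} (h1 : Primrec₂ φ1) {φ2 : α → A → C} (h2 : Primrec₂ φ2) :
    Primrec fun x => dmc rk (L x) (K1 x) (K2 x) (φ1 x) (φ2 x) :=
  list_append.comp (prim_half hrk hL hK1 sumInl (sumInr.comp sumInl) h1)
    (prim_half hrk hL hK2 sumInl (sumInr.comp sumInr) h2)

theorem prim_pathCx {γ : α → ℕ → V} (hγ : Primrec₂ γ) {n : α → ℕ} (hn : Primrec n) :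
    Primrec fun x => pathCx (γ x) (n x) :=
  list_map (list_range.comp hn) (list_cons.comp hγ
    (list_cons.comp (hγ.comp fst (succ.comp snd)) (const []))).to₂

theorem prim_sumMap {D : Type} [Primcodable D] {f : A → B} {g : C → D} (hf : Primrec f)
    (hg : Primrec g) : Primrec (Sum.map f g) :=
  (sumCasesOn .id (sumInl.comp (hf.comp snd)).to₂ (sumInr.comp (hg.comp snd)).to₂).of_eq
    fun x => by cases x <;> rfl

theorem prim_sumElim {f : A → B} {g : C → B} (hf : Primrec f)
    (hg : Primrec g) : Primrec (Sum.elim f g) :=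
  (sumCasesOn .id (hf.comp snd).to₂ (hg.comp snd).to₂).of_eq fun x => by cases x <;> rfl

theorem prim_relabel {K : α → List (List V)} (hK : Primrec K) :
    Primrec fun x => (K x).map (List.map Encodable.encode) :=
  list_map hK (list_map snd (Primrec.encode.comp snd).to₂).to₂

end generic

theorem prim_pos : Primrec₂ pos := by
  have h3 : Primrec fun x : Word × ℕ => x.2 % 3 := nat_mod.comp snd (const 3)
  refine ite (Primrec.eq.comp h3 (const 0)) (const none)
    (option_map (list_getElem?.comp fst (nat_div.comp snd (const 3))) ?_)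
  exact (pair (fst.comp snd) (ite (Primrec.eq.comp (h3.comp fst) (const 1))
    (Primrec.not.comp (snd.comp snd)) (snd.comp snd))).to₂

theorem prim_cyc {α : Type} [Primcodable α] {n j s p : α → ℕ} (hn : Primrec n) (hj : Primrec j)
    (hs : Primrec s) (hp : Primrec p) : Primrec fun x => cyc (n x) (j x) (s x) (p x) :=
  ite (nat_le.comp hp hn) (pair hj (pair hs hp)) (pair hj (pair hs (const 0)))

theorem prim_cycles (m : ℕ) : Primrec (cycles m) := by
  have hl : Primrec fun x : (List Word × ℕ) × ℕ => 3 * (x.1.1.getD x.2 []).length :=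
    nat_mul.comp (const 3) (list_length.comp ((list_getD []).comp (fst.comp fst) snd))
  refine list_flatMap (const _) (list_flatMap (list_range.comp (list_length.comp fst))
    (prim_pathCx (γ := fun x : (List Word × ℕ) × ℕ =>
      cyc (3 * (x.1.1.getD x.2 []).length) x.1.2 x.2) ?_ (succ.comp hl)).to₂).to₂
  exact prim_cyc (hl.comp fst) (snd.comp (fst.comp fst)) (snd.comp fst) snd

theorem prim_apexes (m : ℕ) : Primrec (apexes m) :=
  list_flatMap (const _) (list_map (list_range.comp fst) (list_cons.comp (pair (snd.comp fst) snd)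
    (list_cons.comp (pair (snd.comp fst) snd) (const []))).to₂).to₂

theorem prim_phiC : Primrec₂ phiC :=
  sumInl.comp (pair (fst.comp snd) (prim_pos.comp ((list_getD []).comp fst
    (fst.comp (snd.comp snd))) (snd.comp (snd.comp snd))))

theorem prim_cxL (N : ℕ) (R : List Word) : Primrec fun S => cxL N S R :=
  prim_dmc (snd.comp snd) (prim_cycles _) (const _) ((prim_apexes _).comp list_length) prim_phiC
    (φ2 := fun _ => phiP) (pair (fst.comp snd) (fst.comp (snd.comp snd))).to₂

theorem prim_psi (R : List Word) : Primrec (psi R) :=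
  prim_sumMap (pair (const 0) snd) (prim_sumMap (prim_sumElim (sumInl.comp (pair (const 0) snd))
    (sumInl.comp (pair (const 0) (prim_pos.comp ((list_getD []).comp (const R) fst) snd))))
    (pair (const 0) snd))

theorem prim_cxX (N : ℕ) (R : List Word) :
    Primrec fun S => (cxX N S R).map (List.map Encodable.encode) :=
  prim_relabel (prim_dmc Primrec.encode (prim_cxL N R) (prim_cxL N []) (prim_cxL N [])
    (φ1 := fun _ => psi []) ((prim_psi []).comp snd).to₂ (φ2 := fun _ => psi R)
    ((prim_psi R).comp snd).to₂)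

theorem dim_relabel {V : Type} [DecidableEq V] [Encodable V] {K : List (List V)} {n : ℕ}
    (h : Dim n K) : Dim n (K.map (List.map Encodable.encode)) := fun t ht => by
  obtain ⟨s, hs, rfl⟩ := List.mem_map.1 ht
  exact (card_map_le _ _).trans (h s hs)

/-- A primitive recursive family of complexes of dimension at most three whose contractibility
encodes the halting problem. -/
theorem family : ∃ K : ℕ → List (List ℕ), Primrec K ∧ (∀ n, Dim 4 (K n)) ∧
    ∀ n, ContractibleSpace (real (K n)) ↔ Halts n := by
  obtain ⟨N, R, S, h1, h2, h3, h4, h5, h6⟩ := adian_rabin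
  exact ⟨fun n => (cxX N (S n) R).map (List.map Encodable.encode), (prim_cxX N R).comp h1,
    fun n => dim_relabel (dim_cxX _ _ _),
    fun n => (contractible_iff (h4 n) (h5 n) (h3 n) h2).trans (h6 n).symm⟩

end Pool.Agent.Lib.MP_4c90a8_lc
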