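import Mathlib
import Pool.Agent.Lib.MP_4c90a8_lc.Prim

/-! Listing all faces as increasing lists. -/

namespace Pool.Agent.Lib.MP_4c90a8_lc

open Pool.Agent.Shared.GroupUndec Primrec

/-- the vertices in increasing order -/
def srt (s : List ℕ) : List ℕ := (List.range (s.sum + 1)).filter fun v => decide (∃ a ∈ s, a = v)

/-- all nonempty faces -/
def closure (K : List (List ℕ)) : List (List ℕ) :=
  K.flatMap fun s => (srt s).sublists'.filter fun t => decide (t ≠ [])

theorem mem_srt {s : List ℕ} {v : ℕ} : v ∈ srt s ↔ v ∈ s := by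
  simp only [srt, List.mem_filter, List.mem_range, decide_eq_true_eq, exists_eq_right,
    and_iff_right_iff_imp]
  exact fun h => Nat.lt_succ_of_le (List.le_sum_of_mem h)

theorem srt_sorted (s : List ℕ) : (srt s).Pairwise (· < ·) :=
  List.pairwise_lt_range.filter _

theorem mem_closure {K : List (List ℕ)} {t : List ℕ} :
    t ∈ closure K ↔ ∃ s ∈ K, t.Sublist (srt s) ∧ t ≠ [] := by
  simp [closure]

theorem real_closure (K : List (List ℕ)) : real (closure K) = real K := by
  ext x
  constructor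
  · rintro ⟨t, ht, hx⟩
    obtain ⟨s, hs, h, -⟩ := mem_closure.1 ht
    exact ⟨s, hs, cell_mono hx fun v hv => mem_srt.1 (h.subset (cell_supp hx hv))⟩
  · rintro ⟨s, hs, hx⟩
    obtain ⟨v, hv, -⟩ := cell_exists hx
    exact ⟨srt s, mem_closure.2 ⟨s, hs, List.Sublist.refl _, List.ne_nil_of_mem (mem_srt.2 hv)⟩,
      cell_mono hx fun v hv => mem_srt.2 (cell_supp hx hv)⟩

theorem closure_ok {K : List (List ℕ)} (h : Dim 4 K) : ∀ s ∈ closure K,
    s ≠ [] ∧ s.Pairwise (· < ·) ∧ s.length ≤ 4 ∧ ∀ t, t.Sublist s → t ≠ [] → t ∈ closure K := by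
  intro t ht
  obtain ⟨s, hs, h1, h2⟩ := mem_closure.1 ht
  refine ⟨h2, (srt_sorted s).sublist h1, h1.length_le.trans ?_,
    fun u hu hu' => mem_closure.2 ⟨s, hs, hu.trans h1, hu'⟩⟩
  rw [← List.toFinset_card_of_nodup ((srt_sorted s).imp ne_of_lt)]
  refine le_trans (Finset.card_le_card fun v hv => ?_) (h s hs)
  simpa [mem_srt] using hv

theorem prim_srt : Primrec srt := by
  have h1 : Primrec (List.sum : List ℕ → ℕ) :=
    (list_foldr .id (const 0) (nat_add.comp (fst.comp snd) (snd.comp snd)).to₂).of_eq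
      fun l => by induction l <;> simp_all
  have h2 : PrimrecRel fun (v : ℕ) (s : List ℕ) => ∃ a ∈ s, a = v :=
    (PrimrecRel.exists_mem_list (R := fun a v : ℕ => a = v) Primrec.eq).comp snd fst
  exact h2.listFilter.comp (list_range.comp (succ.comp h1)) .id

theorem prim_sublists : Primrec (List.sublists' : List ℕ → List (List ℕ)) :=
  (list_foldr .id (const [[]]) (list_append.comp (snd.comp snd)
    (list_map (snd.comp snd) (list_cons.comp (fst.comp (snd.comp fst)) snd).to₂)).to₂).of_eq
    fun l => by induction l <;> simp_all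

theorem prim_closure : Primrec closure :=
  list_flatMap .id ((listFilter (p := fun t : List ℕ => t ≠ [])
    (Primrec.eq.comp .id (const [])).not).comp (prim_sublists.comp (prim_srt.comp snd))).to₂

theorem family' : ∃ K : ℕ → List (List ℕ), Primrec K ∧ (∀ n, ∀ s ∈ K n,
    s ≠ [] ∧ s.Pairwise (· < ·) ∧ s.length ≤ 4 ∧ ∀ t, t.Sublist s → t ≠ [] → t ∈ K n) ∧
    ∀ n, ContractibleSpace (real (K n)) ↔ Halts n := by
  obtain ⟨K, h1, h2, h3⟩ := family
  exact ⟨fun n => closure (K n), prim_closure.comp h1, fun n => closure_ok (h2 n),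
    fun n => by rw [real_closure]; exact h3 n⟩

end Pool.Agent.Lib.MP_4c90a8_lc
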